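import Pool.Agent.H49.BP.Gaps

/-!
# KZ: functions for the constant of Cramér
-/

set_option autoImplicit false

open Filter Topology MeasureTheory Set

namespace Pool.Agent.H73.KZ

open Pool.Agent.H49.BP (GapLim)

theorem limsup_real {u : ℕ → ℝ} {l : ℝ} (h1 : ∀ ε : ℝ, 0 < ε → ∀ᶠ n in atTop, u n ≤ l + ε)
    (h2 : ∀ ε : ℝ, 0 < ε → ∃ᶠ n in atTop, l - ε ≤ u n) : limsup (fun n => (u n : EReal)) atTop = (l : EReal) := by
  refine le_antisymm ?_ ?_
  · refine le_of_forall_gt_imp_ge_of_dense fun a ha => ?_
    obtain ⟨c, hc1, hc2⟩ := EReal.lt_iff_exists_real_btwn.1 ha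
    have hc : l < c := EReal.coe_lt_coe_iff.1 hc1
    refine le_trans ?_ hc2.le
    refine limsup_le_of_le (by isBoundedDefault) ?_
    filter_upwards [h1 (c - l) (by linarith)] with n hn
    exact EReal.coe_le_coe_iff.2 (by linarith)
  · refine le_of_forall_lt_imp_le_of_dense fun a ha => ?_
    obtain ⟨c, hc1, hc2⟩ := EReal.lt_iff_exists_real_btwn.1 ha
    have hc : c < l := EReal.coe_lt_coe_iff.1 hc2
    refine hc1.le.trans ?_
    refine le_limsup_of_frequently_le ?_ (by isBoundedDefault)
    refine (h2 (l - c) (by linarith)).mono fun n hn => ?_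
    exact EReal.coe_le_coe_iff.2 (by linarith)

theorem limsup_top {u : ℕ → ℝ} (h2 : ∀ K : ℝ, ∃ᶠ n in atTop, K ≤ u n) :
    limsup (fun n => (u n : EReal)) atTop = ⊤ := by
  rw [EReal.eq_top_iff_forall_lt]
  intro K
  refine lt_of_lt_of_le (EReal.coe_lt_coe_iff.2 (show K < K + 1 by linarith)) ?_
  refine le_limsup_of_frequently_le ?_ (by isBoundedDefault)
  exact (h2 (K + 1)).mono fun n hn => EReal.coe_le_coe_iff.2 hn

theorem log_div_sqrt : ∀ᶠ x : ℝ in atTop, Real.log x ^ 2 ≤ √x := by
  have h := (isLittleO_log_rpow_rpow_atTop (2 : ℝ) (show (0 : ℝ) < 1 / 2 by norm_num)).bound one_pos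
  filter_upwards [h, eventually_gt_atTop 1] with x hx h1
  rw [one_mul, Real.norm_of_nonneg (Real.rpow_nonneg (Real.log_nonneg h1.le) _),
    Real.norm_of_nonneg (Real.rpow_nonneg (by linarith) _)] at hx
  rw [Real.sqrt_eq_rpow]
  have e : Real.log x ^ (2 : ℝ) = Real.log x ^ 2 := by
    rw [← Real.rpow_natCast]
    norm_num
  rwa [e] at hx

/-- the logarithm varies slowly -/
theorem log_slow {η : ℝ} (hη : 0 < η) : ∀ᶠ x : ℝ in atTop, ∀ y, x ≤ y → y ≤ 2 * x →
    Real.log y ≤ (1 + η) * Real.log x := by
  filter_upwards [Real.tendsto_log_atTop.eventually (eventually_ge_atTop (Real.log 2 / η)),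
    eventually_gt_atTop 1] with x h1 h2 y hy1 hy2
  have h3 := Real.log_le_log (by linarith) hy2
  rw [Real.log_mul two_ne_zero (by linarith)] at h3
  rw [div_le_iff₀ hη] at h1
  linarith

theorem log_le_pow {δ : ℝ} (hδ : 0 < δ) {x : ℝ} (hx : 1 ≤ x) : Real.log x ≤ δ⁻¹ * x ^ δ := by
  have h := Real.log_le_rpow_div (x := x) (by linarith) hδ
  rwa [div_eq_inv_mul] at h

/-- the function for the value `L` -/
theorem cra (L : EReal) (hL : 0 ≤ L) : ∃ h : ℝ → ℝ,
    Tendsto (fun x => h x / Real.log x) atTop atTop ∧
    (∃ A : ℝ, ∀ᶠ x in atTop, h x ≤ A * √x * Real.log x) ∧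
    MonotoneOn h (Ici 2) ∧
    (∀ ε : ℝ, 0 < ε → ∀ᶠ x in atTop, ∀ y, x ≤ y → y ≤ 2 * x → h y ≤ (1 + ε) * h x) ∧
    (∀ δ : ℝ, 0 < δ → ∃ C : ℝ, ∀ x : ℝ, 1 ≤ x → h x ≤ C * x ^ δ) ∧
    ∀ q : ℕ → ℝ, StrictMono q → Tendsto q atTop atTop → GapLim q h →
      limsup (fun n => (((q (n + 1) - q n) / Real.log (q n) ^ 2 : ℝ) : EReal)) atTop = L := by
  have hlogtop : ∀ {q : ℕ → ℝ}, Tendsto q atTop atTop → Tendsto (fun n => Real.log (q n)) atTop atTop :=
    fun htop => Real.tendsto_log_atTop.comp htop
  have hmono : ∀ x ∈ Ici (2 : ℝ), ∀ y ∈ Ici (2 : ℝ), x ≤ y → 0 ≤ Real.log x ∧ Real.log x ≤ Real.log y := by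
    intro x hx y _ hxy
    have hx2 : (2 : ℝ) ≤ x := hx
    exact ⟨Real.log_nonneg (by linarith), Real.log_le_log (by linarith) hxy⟩
  induction L using EReal.rec with
  | bot => simp at hL
  | top =>
    refine ⟨fun x => Real.log x ^ 3, ?_, ⟨1, ?_⟩, ?_, ?_, ?_, ?_⟩
    · have h1 : Tendsto (fun x => Real.log x ^ 2) atTop atTop :=
        (tendsto_pow_atTop two_ne_zero).comp Real.tendsto_log_atTop
      refine h1.congr' ?_
      filter_upwards [eventually_gt_atTop 1] with x hx
      have := (Real.log_pos hx).ne'
      field_simp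
    · filter_upwards [log_div_sqrt, eventually_gt_atTop 1] with x h1 h2
      have hl := Real.log_pos h2
      have := mul_le_mul_of_nonneg_right h1 hl.le
      nlinarith
    · intro x hx y hy hxy
      obtain ⟨h1, h2⟩ := hmono x hx y hy hxy
      exact pow_le_pow_left₀ h1 h2 3
    · intro ε hε
      have hη : 0 < min 1 (ε / 7) := by positivity
      filter_upwards [log_slow hη, eventually_gt_atTop 1] with x h1 h2 y hy1 hy2
      have h3 := h1 y hy1 hy2
      have hl := Real.log_pos h2
      have hl2 : 0 ≤ Real.log y := Real.log_nonneg (by linarith)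
      have h4 := pow_le_pow_left₀ hl2 h3 3
      refine h4.trans ?_
      rw [mul_pow]
      apply mul_le_mul_of_nonneg_right _ (by positivity)
      have h5 : min 1 (ε / 7) ≤ 1 := min_le_left _ _
      have h6 : min 1 (ε / 7) ≤ ε / 7 := min_le_right _ _
      generalize min 1 (ε / 7) = η at hη h5 h6
      nlinarith [mul_pos hη hη, mul_nonneg (mul_pos hη hη).le (sub_nonneg.2 h5)]
    · intro δ hδ
      refine ⟨((δ / 3)⁻¹) ^ 3, fun x hx => ?_⟩
      have h1 := pow_le_pow_left₀ (Real.log_nonneg hx) (log_le_pow (δ := δ / 3) (by positivity) hx) 3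
      refine h1.trans (le_of_eq ?_)
      rw [mul_pow, ← Real.rpow_natCast (x ^ (δ / 3)) 3, ← Real.rpow_mul (by linarith)]
      congr 2
      push_cast
      ring
    · rintro q hq htop ⟨hg1, hg2⟩
      refine limsup_top fun K => ?_
      have hl := hlogtop htop
      refine ((hg2 (1 / 2) (by norm_num)).and_eventually ((hl.eventually (eventually_ge_atTop (2 * |K|))).and
        (hl.eventually (eventually_gt_atTop 0)))).mono fun n hn => ?_
      obtain ⟨h1, h2, h3⟩ := hn
      rw [le_div_iff₀ (by positivity)]
      have h4 := le_abs_self K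
      have h5 : K * Real.log (q n) ^ 2 ≤ |K| * Real.log (q n) ^ 2 :=
        mul_le_mul_of_nonneg_right h4 (by positivity)
      have h6 : |K| * Real.log (q n) ^ 2 ≤ (Real.log (q n) / 2) * Real.log (q n) ^ 2 :=
        mul_le_mul_of_nonneg_right (by linarith) (by positivity)
      nlinarith
  | coe l =>
    have hl0 : 0 ≤ l := by exact_mod_cast hL
    rcases eq_or_lt_of_le hl0 with h0 | h0
    · subst h0
      refine ⟨fun x => Real.log x * √(Real.log x), ?_, ⟨1, ?_⟩, ?_, ?_, ?_, ?_⟩
      · have h1 : Tendsto (fun x => √(Real.log x)) atTop atTop :=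
          Real.tendsto_sqrt_atTop.comp Real.tendsto_log_atTop
        refine h1.congr' ?_
        filter_upwards [eventually_gt_atTop 1] with x hx
        have := (Real.log_pos hx).ne'
        field_simp
      · filter_upwards [log_div_sqrt, eventually_gt_atTop (Real.exp 1)] with x h1 h2
        have hx1 : 1 < x := lt_trans (by
          have := Real.add_one_le_exp 1
          linarith) h2
        have hl : 1 ≤ Real.log x := by
          rw [Real.le_log_iff_exp_le (by linarith)]
          exact h2.le
        have h3 : √(Real.log x) ≤ Real.log x ^ 2 := by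
          calc √(Real.log x) ≤ Real.log x := by
                rw [Real.sqrt_le_left (by linarith)]
                nlinarith
            _ ≤ Real.log x ^ 2 := by nlinarith
        nlinarith
      · intro x hx y hy hxy
        obtain ⟨h1, h2⟩ := hmono x hx y hy hxy
        exact mul_le_mul h2 (Real.sqrt_le_sqrt h2) (Real.sqrt_nonneg _) (h1.trans h2)
      · intro ε hε
        have hη : 0 < min 1 (ε / 7) := by positivity
        filter_upwards [log_slow hη, eventually_gt_atTop 1] with x h1 h2 y hy1 hy2
        have h3 := h1 y hy1 hy2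
        have hl := Real.log_pos h2
        have hl2 : 0 ≤ Real.log y := Real.log_nonneg (by linarith)
        have h5 : min 1 (ε / 7) ≤ 1 := min_le_left _ _
        have h6 : min 1 (ε / 7) ≤ ε / 7 := min_le_right _ _
        generalize min 1 (ε / 7) = η at hη h3 h5 h6
        have h4 : √(Real.log y) ≤ (1 + η) * √(Real.log x) := by
          rw [Real.sqrt_le_left (by positivity), mul_pow, Real.sq_sqrt hl.le]
          refine h3.trans ?_
          apply mul_le_mul_of_nonneg_right _ hl.le
          nlinarith
        calc Real.log y * √(Real.log y) ≤ ((1 + η) * Real.log x) * ((1 + η) * √(Real.log x)) :=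
              mul_le_mul h3 h4 (Real.sqrt_nonneg _) (by positivity)
          _ = (1 + η) ^ 2 * (Real.log x * √(Real.log x)) := by ring
          _ ≤ (1 + ε) * (Real.log x * √(Real.log x)) := by
              apply mul_le_mul_of_nonneg_right _ (by positivity)
              nlinarith
      · intro δ hδ
        refine ⟨(δ / 2)⁻¹ * (1 + (δ / 2)⁻¹), fun x hx => ?_⟩
        have h1 := log_le_pow (δ := δ / 2) (by positivity) hx
        have hl := Real.log_nonneg hx
        have hxp : 1 ≤ x ^ (δ / 2) := Real.one_le_rpow hx (by positivity)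
        have h2 : √(Real.log x) ≤ (1 + (δ / 2)⁻¹) * x ^ (δ / 2) := by
          have h3 : √(Real.log x) ≤ 1 + Real.log x := by
            rw [Real.sqrt_le_left (by positivity)]
            nlinarith
          nlinarith
        calc Real.log x * √(Real.log x) ≤ ((δ / 2)⁻¹ * x ^ (δ / 2)) * ((1 + (δ / 2)⁻¹) * x ^ (δ / 2)) :=
              mul_le_mul h1 h2 (Real.sqrt_nonneg _) (by positivity)
          _ = (δ / 2)⁻¹ * (1 + (δ / 2)⁻¹) * (x ^ (δ / 2) * x ^ (δ / 2)) := by ring
          _ = (δ / 2)⁻¹ * (1 + (δ / 2)⁻¹) * x ^ δ := by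
              rw [← Real.rpow_add (by linarith)]
              congr 2
              ring
      · rintro q hq htop ⟨hg1, hg2⟩
        have hl := hlogtop htop
        have := limsup_real (u := fun n => (q (n + 1) - q n) / Real.log (q n) ^ 2) (l := 0) (fun ε hε => by
          filter_upwards [hg1 1 one_pos, hl.eventually (eventually_ge_atTop ((2 / ε) ^ 2)),
            hl.eventually (eventually_gt_atTop 0)] with n h1 h2 h3
          have h4 : 2 / ε ≤ √(Real.log (q n)) := by
            rw [Real.le_sqrt' (by positivity)]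
            exact h2
          have h5 : 2 ≤ ε * √(Real.log (q n)) := by
            rw [div_le_iff₀ hε] at h4
            linarith
          have h6 : √(Real.log (q n)) * √(Real.log (q n)) = Real.log (q n) := Real.mul_self_sqrt h3.le
          rw [div_le_iff₀ (by positivity), zero_add]
          have h7 : 2 * √(Real.log (q n)) ≤ ε * Real.log (q n) := by
            calc 2 * √(Real.log (q n)) ≤ (ε * √(Real.log (q n))) * √(Real.log (q n)) :=
                  mul_le_mul_of_nonneg_right h5 (Real.sqrt_nonneg _)
              _ = ε * Real.log (q n) := by rw [mul_assoc, h6]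
          have h8 := mul_le_mul_of_nonneg_left h7 h3.le
          nlinarith) (fun ε hε => by
          refine Eventually.frequently ?_
          filter_upwards with n
          have h1 : 0 ≤ q (n + 1) - q n := sub_nonneg.2 (hq.monotone (Nat.le_succ n))
          have h2 : 0 ≤ (q (n + 1) - q n) / Real.log (q n) ^ 2 := by positivity
          linarith)
        rw [this]
    · refine ⟨fun x => l * Real.log x ^ 2, ?_, ⟨l, ?_⟩, ?_, ?_, ?_, ?_⟩
      · have h1 : Tendsto (fun x => l * Real.log x) atTop atTop :=
          Real.tendsto_log_atTop.const_mul_atTop h0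
        refine h1.congr' ?_
        filter_upwards [eventually_gt_atTop 1] with x hx
        have := (Real.log_pos hx).ne'
        field_simp
      · filter_upwards [log_div_sqrt, eventually_gt_atTop (Real.exp 1)] with x h1 h2
        have hx1 : 1 < x := lt_trans (by
          have := Real.add_one_le_exp 1
          linarith) h2
        have hl : 1 ≤ Real.log x := by
          rw [Real.le_log_iff_exp_le (by linarith)]
          exact h2.le
        have h3 : Real.log x ^ 2 ≤ √x * Real.log x := by
          calc Real.log x ^ 2 ≤ √x := h1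
            _ ≤ √x * Real.log x := le_mul_of_one_le_right (Real.sqrt_nonneg _) hl
        rw [mul_assoc]
        exact mul_le_mul_of_nonneg_left h3 h0.le
      · intro x hx y hy hxy
        obtain ⟨h1, h2⟩ := hmono x hx y hy hxy
        exact mul_le_mul_of_nonneg_left (pow_le_pow_left₀ h1 h2 2) h0.le
      · intro ε hε
        have hη : 0 < min 1 (ε / 7) := by positivity
        filter_upwards [log_slow hη, eventually_gt_atTop 1] with x h1 h2 y hy1 hy2
        have h3 := h1 y hy1 hy2
        have hl := Real.log_pos h2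
        have hl2 : 0 ≤ Real.log y := Real.log_nonneg (by linarith)
        have h5 : min 1 (ε / 7) ≤ 1 := min_le_left _ _
        have h6 : min 1 (ε / 7) ≤ ε / 7 := min_le_right _ _
        generalize min 1 (ε / 7) = η at hη h3 h5 h6
        have h4 := pow_le_pow_left₀ hl2 h3 2
        calc l * Real.log y ^ 2 ≤ l * ((1 + η) * Real.log x) ^ 2 := mul_le_mul_of_nonneg_left h4 h0.le
          _ = (1 + η) ^ 2 * (l * Real.log x ^ 2) := by ring
          _ ≤ (1 + ε) * (l * Real.log x ^ 2) := by
              apply mul_le_mul_of_nonneg_right _ (by positivity)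
              nlinarith
      · intro δ hδ
        refine ⟨l * ((δ / 2)⁻¹) ^ 2, fun x hx => ?_⟩
        have h1 := pow_le_pow_left₀ (Real.log_nonneg hx) (log_le_pow (δ := δ / 2) (by positivity) hx) 2
        have h2 := mul_le_mul_of_nonneg_left h1 h0.le
        refine h2.trans (le_of_eq ?_)
        rw [mul_pow, ← Real.rpow_natCast (x ^ (δ / 2)) 2, ← Real.rpow_mul (by linarith), ← mul_assoc]
        congr 2
        push_cast
        ring
      · rintro q hq htop ⟨hg1, hg2⟩
        have hl := hlogtop htop
        refine limsup_real (fun ε hε => ?_) (fun ε hε => ?_)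
        · filter_upwards [hg1 (ε / l) (by positivity), hl.eventually (eventually_gt_atTop 0)] with n h1 h3
          rw [div_le_iff₀ (by positivity)]
          refine h1.trans (le_of_eq ?_)
          field_simp
        · refine ((hg2 (ε / l) (by positivity)).and_eventually (hl.eventually (eventually_gt_atTop 0))).mono
            fun n hn => ?_
          obtain ⟨h1, h3⟩ := hn
          rw [le_div_iff₀ (by positivity)]
          refine le_trans (le_of_eq ?_) h1
          field_simp

end Pool.Agent.H73.KZ
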