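import Pool.Agent.H73.KT.Hol

/-!
# KZ, Hol2: the holes, with the intervals where the counting function changes

(writer: helper68; the proof of `KT.holes` by helper49 with two more parts)
-/

set_option autoImplicit false

open MeasureTheory Filter Topology Set

namespace Pool.Agent.H73.KT

open Pool.Agent.H49.BP Pool.Agent.H73.TR

theorem qh_le_en {q : ℕ → ℝ} (hg : ∀ n : ℕ, (n : ℝ) + 1 ≤ q n) (h : ℝ → ℝ) {n0 j k : ℕ} (h1 : InH q h n0 k j) :
    qh q h n0 j ≤ q (en q h (st q h n0 k)) := by
  rw [qh_in hg h h1]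
  set n := st q h n0 k with hn
  have h2 : (n : ℝ) < en q h n := by exact_mod_cast en_gt hg h n
  have h3 := en_ge hg h n
  have h4 : (j : ℝ) ≤ en q h n := by exact_mod_cast h1.2.le
  have h5 : ((j : ℝ) - n) / ((en q h n : ℝ) - n) ≤ 1 := by
    rw [div_le_one (by linarith)]
    linarith
  unfold fv
  have h6 : (q (en q h n) - (q n + h (q n))) * (((j : ℝ) - n) / ((en q h n : ℝ) - n)) ≤
      (q (en q h n) - (q n + h (q n))) * 1 := mul_le_mul_of_nonneg_left h5 (by linarith)
  linarith

/-- `holes` for sequences whose counting function has increments at most `2 (b - a) / log a + C √b`, with the places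
(`u k ≤ x ≤ w k`) where the counting function changes. -/
theorem holes2 {q : ℕ → ℝ} {h : ℝ → ℝ} (hq : StrictMono q) (hg : ∀ n : ℕ, (n : ℝ) + 1 ≤ q n)
    (hinc : ∃ C : ℝ, ∀ a b : ℝ, 2 ≤ a → a ≤ b →
      (pc q b : ℝ) - pc q a ≤ 2 * (b - a) / Real.log a + C * √b)
    (hlim : Tendsto (fun x => h x / Real.log x) atTop atTop)
    (hup : ∃ A : ℝ, ∀ᶠ x in atTop, h x ≤ A * √x * Real.log x)
    (hgap : ∀ ε : ℝ, 0 < ε → ∀ᶠ n in atTop, ∀ y : ℝ, q n / 2 ≤ y → q (n + 1) - q n ≤ ε * h y) :
    ∃ q' : ℕ → ℝ, Moved q q' ∧ GapLim q' h ∧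
      (∀ ε : ℝ, 0 < ε → ∀ᶠ n in atTop, q' (n + 2) - q' n ≤ (1 + ε) * max (h (q' n)) (h (q' (n + 1)))) ∧
      (∀ (MM : ℝ → ℝ) (B : ℝ), (∀ x y : ℝ, 1 ≤ x → x ≤ y → MM y - MM x ≤ B * (y - x)) →
        (∀ δ : ℝ, 0 < δ → ∃ C : ℝ, ∀ x : ℝ, 1 ≤ x → h x ≤ C * x ^ δ) →
        (∀ δ : ℝ, 0 < δ → ∃ C : ℝ, ∀ x : ℝ, 1 ≤ x → |(pc q x : ℝ) - MM x| ≤ C * x ^ δ) →
        ∀ δ : ℝ, 0 < δ → ∃ C : ℝ, ∀ x : ℝ, 1 ≤ x → |(pc q' x : ℝ) - MM x| ≤ C * x ^ δ) ∧
      ∃ (u w : ℕ → ℝ) (K : ℝ), 0 ≤ K ∧ (∀ k, (2 : ℝ) ^ k ≤ u k) ∧
      (∀ k, u k ≤ w k ∧ w k - u k ≤ K * √(u k) * Real.log (u k + 2)) ∧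
      (∀ x : ℝ, (∀ k, ¬ (u k ≤ x ∧ x ≤ w k)) → pc q' x = pc q x) ∧
      (∀ (k : ℕ) (x : ℝ), u k ≤ x → x ≤ w k → (pc q x : ℝ) - pc q' x ≤ K * √(u k)) ∧
      ∀ x : ℝ, pc q' x ≤ pc q x := by
  obtain ⟨C0, hC0⟩ := hinc
  obtain ⟨A0, hA0⟩ := hup
  set C := max C0 0 with hCdef
  set A := max A0 0 with hAdef
  have hC : 0 ≤ C := le_max_right _ _
  have hA : 0 ≤ A := le_max_right _ _
  have hinf : Tendsto h atTop atTop := by
    refine tendsto_atTop_mono' (f₁ := fun x => Real.log x) (f₂ := h) _ ?_ Real.tendsto_log_atTop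
    filter_upwards [hlim.eventually (eventually_ge_atTop 1), eventually_gt_atTop 1] with x h1 h2
    rw [le_div_iff₀ (log_pos' h2)] at h1
    linarith
  have hev : ∀ᶠ x in atTop, h x ≤ A * √x * Real.log x ∧ 1 ≤ h x ∧ h x ≤ x := by
    have hss : Tendsto (fun x : ℝ => √(√x)) atTop atTop := Real.tendsto_sqrt_atTop.comp Real.tendsto_sqrt_atTop
    filter_upwards [hA0, hinf.eventually (eventually_ge_atTop 1), eventually_gt_atTop 1,
      hss.eventually (eventually_ge_atTop (4 * A))] with x h1 h2 h3 h4
    have hl := log_pos' h3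
    have hx0 : 0 < x := by linarith
    have h5 : h x ≤ A * √x * Real.log x := by
      refine h1.trans ?_
      have : A0 ≤ A := le_max_left _ _
      gcongr
    refine ⟨h5, h2, h5.trans ?_⟩
    have h6 : Real.log x ≤ 4 * √(√x) := by
      have h7 : Real.log x = 4 * Real.log (√(√x)) := by
        rw [Real.log_sqrt (Real.sqrt_nonneg x), Real.log_sqrt hx0.le]
        ring
      have h8 := Real.log_le_sub_one_of_pos (x := √(√x)) (by positivity)
      linarith
    have e1 : √(√x) * √(√x) = √x := Real.mul_self_sqrt (Real.sqrt_nonneg x)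
    have e2 : √x * √x = x := Real.mul_self_sqrt hx0.le
    calc A * √x * Real.log x ≤ A * √x * (4 * √(√x)) := mul_le_mul_of_nonneg_left h6 (by positivity)
      _ = √x * √(√x) * (4 * A) := by ring
      _ ≤ √x * √(√x) * √(√x) := mul_le_mul_of_nonneg_left h4 (by positivity)
      _ = √x * (√(√x) * √(√x)) := by ring
      _ = x := by rw [e1, e2]
  obtain ⟨X, hX⟩ := hev.exists_forall_of_atTop
  obtain ⟨n1, hn1⟩ := exists_nat_ge X
  obtain ⟨n3, hn3⟩ := eventually_atTop.1 (hgap 1 one_pos)
  set n0 := n1 + n3 + 2 with hn0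
  have hX' : ∀ n, n0 ≤ n → h (q n) ≤ A * √(q n) * Real.log (q n) ∧ 1 ≤ h (q n) ∧ h (q n) ≤ q n := by
    intro n hn
    refine hX _ ?_
    have h1 := hg n
    have h2 : (n1 : ℝ) ≤ n := by exact_mod_cast (by omega : n1 ≤ n)
    linarith
  have hst : ∀ k, n0 ≤ st q h n0 k := st_ge hg h n0
  have hmv : ∀ n, q n ≤ qh q h n0 n := by
    intro n
    by_cases hn : ∃ k, InH q h n0 k n
    · obtain ⟨k, hk⟩ := hn
      rw [qh_in hg h hk]
      exact (en_min hk.1 hk.2).trans (fv_gt hg h hk.1).le
    · rw [qh_out h hn]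
  have hcnt : ∀ k, ((en q h (st q h n0 k) : ℕ) : ℝ) - (st q h n0 k : ℕ) - 1 ≤ (2 * A + 2 * C) * √(q (st q h n0 k)) := by
    intro k
    set n := st q h n0 k with hn
    set r := en q h n with hr
    have hnr : n < r := en_gt hg h n
    obtain ⟨a1, a2, a3⟩ := hX' n (hst k)
    have hn1' : 1 ≤ n := by
      have := hst k
      omega
    have hα : 2 ≤ q n := by
      have h5 := hg n
      have h6 : (1 : ℝ) ≤ n := by exact_mod_cast hn1'
      linarith
    set α := q n with hαdef
    set β := α + h α with hβ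
    have hαβ : α ≤ β := by linarith
    have hpα : pc q α ≤ n + 1 := by
      by_contra h5
      push Not at h5
      have h6 := (lt_pc hq hg α (n + 1)).1 h5
      have h7 : q n < q (n + 1) := hq (Nat.lt_succ_self n)
      linarith
    have hpβ : r ≤ pc q β := by
      have h5 : r - 1 < pc q β := (lt_pc hq hg β (r - 1)).2 (en_pred hg h (by linarith))
      omega
    have hpα' : (pc q α : ℝ) ≤ n + 1 := by exact_mod_cast hpα
    have hpβ' : (r : ℝ) ≤ pc q β := by exact_mod_cast hpβ
    have c1 := hC0 α β hα hαβ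
    have hCC : C0 ≤ C := le_max_left _ _
    have hs2 : √β ≤ 2 * √α := by
      rw [Real.sqrt_le_left (by positivity)]
      have : √α * √α = α := Real.mul_self_sqrt (by linarith)
      nlinarith
    have c2' : C0 * √β ≤ C * (2 * √α) :=
      (mul_le_mul_of_nonneg_right hCC (Real.sqrt_nonneg _)).trans (mul_le_mul_of_nonneg_left hs2 hC)
    have c4 : 2 * (β - α) / Real.log α ≤ 2 * (A * √α) := by
      rw [div_le_iff₀ (log_pos' (by linarith))]
      have : β - α = h α := by rw [hβ]; ring
      rw [this]
      nlinarith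
    have e : (2 * A + 2 * C) * √α = 2 * (A * √α) + C * (2 * √α) := by ring
    rw [e]
    linarith
  have hMoved : Moved q (qh q h n0) := by
    refine ⟨?_, hmv, 2 + 2 * A + 2 * C, by positivity, ?_⟩
    · -- strictly increasing
      refine strictMono_nat_of_lt_succ fun j => ?_
      rcases qh_cases hg h n0 j with ⟨k, hk⟩ | ⟨k, hk⟩ | ⟨h1, h2⟩
      · rw [qh_in hg h hk, qh_next hg h hk.1.le hk.2]
        have h3 := fv_step hg h (st q h n0 k) j
        have h4 := (step_bd hg h (st q h n0 k)).1
        linarith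
      · rw [← hk, qh_st hg h, qh_next hg h le_rfl (en_gt hg h _)]
        have h3 := fv_gt hg h (Nat.lt_succ_self (st q h n0 k))
        have h4 := (hX' _ (hst k)).2.1
        linarith
      · rw [h1, h2]
        exact hq (Nat.lt_succ_self j)
    · -- few
      intro x hx
      have hsx : 1 ≤ √x := Real.one_le_sqrt.2 hx
      set S : Set ℕ := {n : ℕ | q n ≤ x ∧ qh q h n0 n ≠ q n} with hS
      have hSin : ∀ n ∈ S, ∃ k, InH q h n0 k n := by
        intro n hn
        by_contra h1
        exact hn.2 (qh_out h h1)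
      rcases le_or_gt (q (st q h n0 0)) x with h0 | h0
      · classical
        set J := Nat.findGreatest (fun k => q (st q h n0 k) ≤ x) ⌈x⌉₊ with hJ
        have hJ1 : q (st q h n0 J) ≤ x := Nat.findGreatest_spec (P := fun k => q (st q h n0 k) ≤ x) (Nat.zero_le _) h0
        have hJ2 : ∀ k, q (st q h n0 k) ≤ x → k ≤ J := by
          intro k hk
          refine Nat.le_findGreatest ?_ hk
          have h1 := (st_mono hg h n0).le_apply (x := k)
          have h2 := hg (st q h n0 k)
          have h3 : (k : ℝ) ≤ st q h n0 k := by exact_mod_cast h1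
          have h4 : x ≤ ⌈x⌉₊ := Nat.le_ceil x
          have h5 : (k : ℝ) ≤ ⌈x⌉₊ := by linarith
          exact_mod_cast h5
        set n := st q h n0 J with hn
        set r := en q h n with hr
        have hnr : n < r := en_gt hg h n
        have hsub : S ⊆ ((Finset.range (⌊√x⌋₊ + 1) ∪ Finset.Ioo n r : Finset ℕ) : Set ℕ) := by
          intro j hj
          obtain ⟨k, hk⟩ := hSin j hj
          have h1 : q (st q h n0 k) ≤ x := (hq hk.1).le.trans hj.1
          rw [Finset.mem_coe, Finset.mem_union, Finset.mem_range, Finset.mem_Ioo]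
          rcases (hJ2 k h1).lt_or_eq with h2 | h2
          · left
            have h3 := st_sq (q := q) h n0 k
            have h4 : st q h n0 (k + 1) ≤ n := (st_mono hg h n0).monotone h2
            have h5 : (((en q h (st q h n0 k)) ^ 2 : ℕ) : ℝ) ≤ (n : ℝ) := by exact_mod_cast h3.trans h4
            push_cast at h5
            have h6 := hg n
            have h7 : ((en q h (st q h n0 k) : ℕ) : ℝ) ≤ √x := Real.le_sqrt_of_sq_le (by linarith)
            have h8 : en q h (st q h n0 k) ≤ ⌊√x⌋₊ := Nat.le_floor h7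
            have := hk.2
            omega
          · right
            subst h2
            exact hk
        have h1 := Set.ncard_le_ncard hsub (Finset.finite_toSet _)
        rw [Set.ncard_coe_finset] at h1
        have h2 := h1.trans (Finset.card_union_le _ _)
        rw [Finset.card_range, Nat.card_Ioo] at h2
        have h3 : (S.ncard : ℝ) ≤ (⌊√x⌋₊ : ℝ) + 1 + ((r : ℝ) - n - 1) := by
          have h4 : S.ncard + n + 1 ≤ ⌊√x⌋₊ + 1 + r := by omega
          have h5 : ((S.ncard + n + 1 : ℕ) : ℝ) ≤ ((⌊√x⌋₊ + 1 + r : ℕ) : ℝ) := by exact_mod_cast h4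
          push_cast at h5
          linarith
        have h4 : (⌊√x⌋₊ : ℝ) ≤ √x := Nat.floor_le (Real.sqrt_nonneg x)
        have h5 := hcnt J
        set α := q n with hαdef
        have h6 : (2 * A + 2 * C) * √α ≤ (2 * A + 2 * C) * √x :=
          mul_le_mul_of_nonneg_left (Real.sqrt_le_sqrt hJ1) (by positivity)
        have e : (2 + 2 * A + 2 * C) * √x = 2 * √x + (2 * A + 2 * C) * √x := by ring
        rw [e]
        linarith
      · have hemp : S = ∅ := by
          rw [Set.eq_empty_iff_forall_notMem]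
          intro n hn
          obtain ⟨k, hk⟩ := hSin n hn
          have h1 : q (st q h n0 0) ≤ q (st q h n0 k) := hq.monotone ((st_mono hg h n0).monotone (Nat.zero_le k))
          have h2 := hq hk.1
          have h3 := hn.1
          linarith
        rw [hemp, Set.ncard_empty]
        push_cast
        positivity
  have hkey : ∀ ε : ℝ, 0 < ε → ∀ᶠ j in atTop, 1 ≤ h (qh q h n0 j) ∧
      ((∃ k, st q h n0 k = j) → qh q h n0 (j + 1) - qh q h n0 j ≤ (1 + ε) * h (qh q h n0 j)) ∧
      ((¬ ∃ k, st q h n0 k = j) → qh q h n0 (j + 1) - qh q h n0 j ≤ ε * h (qh q h n0 j)) := by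
    intro ε hε
    have h1 := hgap ε hε
    rw [eventually_atTop] at h1
    obtain ⟨n2, hn2⟩ := h1
    filter_upwards [eventually_ge_atTop n2, eventually_ge_atTop n0] with j hj1 hj2
    have hpos : 1 ≤ h (qh q h n0 j) := by
      refine (hX _ ?_).2.1
      have h2 := hmv j
      have h3 := hg j
      have h4 : (n1 : ℝ) ≤ j := by exact_mod_cast (by omega : n1 ≤ j)
      linarith
    refine ⟨hpos, ?_, ?_⟩
    · rintro ⟨k, hk⟩
      have e1 := qh_st hg h n0 k
      have e2 := qh_next hg h (n0 := n0) (k := k) le_rfl (en_gt hg h _)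
      rw [hk] at e1 e2
      have h3 := fv_step hg h j j
      rw [fv_start] at h3
      have h4 := (step_bd hg h j).2
      obtain ⟨a1, a2, a3⟩ := hX' j hj2
      have h5 := en_pred hg h (n := j) (by linarith)
      have hen := en_gt hg h j
      have h7 : q (en q h j - 1) / 2 ≤ q j := by linarith
      have h8 := hn2 (en q h j - 1) (by omega) _ h7
      have e3 : en q h j - 1 + 1 = en q h j := by omega
      rw [e3] at h8
      rw [e2, e1]
      linarith
    · intro hns
      rcases qh_cases hg h n0 j with ⟨k, hk⟩ | ⟨k, hk⟩ | ⟨h2, h3⟩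
      · have e1 := qh_in hg h hk
        have e2 := qh_next hg h hk.1.le hk.2
        have h3 := fv_step hg h (st q h n0 k) j
        have h4 := (step_bd hg h (st q h n0 k)).2
        have h5 := en_pred hg h (n := st q h n0 k) (by linarith [(hX' _ (hst k)).2.1])
        have h6 := fv_gt hg h hk.1
        have h7 : q (en q h (st q h n0 k) - 1) / 2 ≤ qh q h n0 j := by
          have := hg (en q h (st q h n0 k) - 1)
          have : (0 : ℝ) ≤ ((en q h (st q h n0 k) - 1 : ℕ) : ℝ) := Nat.cast_nonneg _
          rw [e1]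
          linarith
        have h8 := hn2 (en q h (st q h n0 k) - 1) (by have := hk.2; omega) _ h7
        have e3 : en q h (st q h n0 k) - 1 + 1 = en q h (st q h n0 k) := by have := hk.2; omega
        rw [e3] at h8
        rw [e2]
        nth_rewrite 1 [e1]
        linarith
      · exact absurd ⟨k, hk⟩ hns
      · have h4 := hn2 j hj1 (q j) (by
          have := hg j
          have : (0 : ℝ) ≤ j := Nat.cast_nonneg j
          linarith)
        rw [h3]
        nth_rewrite 1 [h2]
        rw [h2] at hpos ⊢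
        linarith
  have hg' := moved_hg hq hg hMoved
  have hT : ∀ x j, pc (qh q h n0) x ≤ j → j < pc q x → q j ≤ x ∧ x < qh q h n0 j := by
    intro x j h1 h2
    refine ⟨(lt_pc hq hg x j).1 h2, ?_⟩
    by_contra h3
    push Not at h3
    exact absurd ((lt_pc hMoved.1 hg' x j).2 h3) (not_lt.2 h1)
  have hin : ∀ {x : ℝ} (j : ℕ), q j ≤ x ∧ x < qh q h n0 j → ∃ k, InH q h n0 k j := by
    intro x j hj
    by_contra h3
    rw [qh_out h h3] at hj
    linarith [hj.1, hj.2]
  refine ⟨qh q h n0, hMoved, ⟨?_, ?_⟩, ?_, ?_, fun k => q (st q h n0 k), fun k => q (en q h (st q h n0 k)),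
    2 * A + 2 * C, by positivity, ?_, ?_, ?_, ?_, ?_⟩
  · -- the upper bound of the gaps
    intro ε hε
    filter_upwards [hkey ε hε] with j hj
    by_cases hs : ∃ k, st q h n0 k = j
    · exact hj.2.1 hs
    · have h1 := hj.2.2 hs
      have h2 := hj.1
      linarith
  · -- the holes
    intro ε hε
    rw [frequently_atTop]
    intro a
    refine ⟨st q h n0 a, (st_mono hg h n0).le_apply, ?_⟩
    rw [qh_st hg h, qh_next hg h le_rfl (en_gt hg h _)]
    have h3 := fv_gt hg h (Nat.lt_succ_self (st q h n0 a))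
    obtain ⟨a1, a2, a3⟩ := hX' _ (hst a)
    have : 0 ≤ ε * h (q (st q h n0 a)) := by positivity
    linarith
  · -- two gaps
    intro ε hε
    have h1 := hkey (ε / 2) (by linarith)
    filter_upwards [h1, (tendsto_add_atTop_nat 1).eventually h1] with j hj hj1
    set a := h (qh q h n0 j) with ha
    set b := h (qh q h n0 (j + 1)) with hb
    have m1 : a ≤ max a b := le_max_left _ _
    have m2 : b ≤ max a b := le_max_right _ _
    have e : qh q h n0 (j + 2) - qh q h n0 j =
        (qh q h n0 (j + 1 + 1) - qh q h n0 (j + 1)) + (qh q h n0 (j + 1) - qh q h n0 j) := by ring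
    rw [e]
    have m3 : ε / 2 * a ≤ ε / 2 * max a b := mul_le_mul_of_nonneg_left m1 (by linarith)
    have m4 : ε / 2 * b ≤ ε / 2 * max a b := mul_le_mul_of_nonneg_left m2 (by linarith)
    by_cases hs : ∃ k, st q h n0 k = j
    · have hs1 : ¬ ∃ k, st q h n0 k = j + 1 := by
        rintro ⟨k', hk'⟩
        obtain ⟨k, hk⟩ := hs
        have h2 : st q h n0 k < st q h n0 k' := by omega
        have h3 : k < k' := (st_mono hg h n0).lt_iff_lt.1 h2
        have h4 := st_en hg h n0 h3
        have h5 := en_gt hg h (st q h n0 k)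
        omega
      have h2 := hj.2.1 hs
      have h3 := hj1.2.2 hs1
      nlinarith
    · have h2 := hj.2.2 hs
      by_cases hs1 : ∃ k, st q h n0 k = j + 1
      · have h3 := hj1.2.1 hs1
        nlinarith
      · have h3 := hj1.2.2 hs1
        have h4 := hj.1
        nlinarith
  · -- the counting function
    intro MM B hMM hh hpc δ hδ
    obtain ⟨C1, hC1⟩ := hh δ hδ
    obtain ⟨C2, hC2⟩ := hpc δ hδ
    have hC1' : 0 ≤ max C1 0 := le_max_right _ _
    have hC2' : 0 ≤ max C2 0 := le_max_right _ _
    have hB' : 0 ≤ max B 0 := le_max_right _ _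
    set K : ℝ := max B 0 * max C1 0 + max C2 0 * (2 ^ δ + 1) with hK
    have hK0 : 0 ≤ K := by positivity
    refine ⟨max C2 0 + K, fun x hx => ?_⟩
    have hx0 : 0 < x := by linarith
    have hxδ : 0 < x ^ δ := Real.rpow_pos_of_pos hx0 δ
    have hmp := moved_pc hq hg hMoved x
    have hmain : (pc q x : ℝ) - pc (qh q h n0) x ≤ K * x ^ δ := by
      have hg' := moved_hg hq hg hMoved
      have hT : ∀ j, pc (qh q h n0) x ≤ j → j < pc q x → q j ≤ x ∧ x < qh q h n0 j := by
        intro j h1 h2
        refine ⟨(lt_pc hq hg x j).1 h2, ?_⟩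
        by_contra h3
        push Not at h3
        exact absurd ((lt_pc hMoved.1 hg' x j).2 h3) (not_lt.2 h1)
      rcases Nat.lt_or_ge (pc (qh q h n0) x) (pc q x) with hlt | hge
      · obtain ⟨b1, b2⟩ := hT _ le_rfl hlt
        have hin : ∀ j, q j ≤ x ∧ x < qh q h n0 j → ∃ k, InH q h n0 k j := by
          intro j hj
          by_contra h3
          rw [qh_out h h3] at hj
          linarith [hj.1, hj.2]
        obtain ⟨k, hk⟩ := hin _ ⟨b1, b2⟩
        have hall : ∀ j, q j ≤ x ∧ x < qh q h n0 j → InH q h n0 k j := by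
          intro j hj
          obtain ⟨k', hk'⟩ := hin j hj
          rcases lt_trichotomy k k' with h3 | h3 | h3
          · exfalso
            have h4 := st_en hg h n0 h3
            have h5 := qh_le_en hg h hk
            have h6 : q (en q h (st q h n0 k)) < q j := hq (h4.trans hk'.1)
            linarith [hj.1]
          · rw [h3]
            exact hk'
          · exfalso
            have h4 := st_en hg h n0 h3
            have h5 := qh_le_en hg h hk'
            have h6 : q (en q h (st q h n0 k')) < q (pc (qh q h n0) x) := hq (h4.trans hk.1)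
            linarith [hj.2]
        set n := st q h n0 k with hn
        set r := en q h n with hr
        have hnr : n < r := en_gt hg h n
        have hcard : pc q x - pc (qh q h n0) x ≤ r - n - 1 := by
          have h3 : Finset.Ico (pc (qh q h n0) x) (pc q x) ⊆ Finset.Ioo n r := by
            intro j hj
            rw [Finset.mem_Ico] at hj
            have h4 := hall j (hT j hj.1 hj.2)
            rw [Finset.mem_Ioo]
            exact h4
          have h4 := Finset.card_le_card h3
          rwa [Nat.card_Ico, Nat.card_Ioo] at h4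
        have hqn : q n ≤ x := (hq hk.1).le.trans b1
        obtain ⟨a1, a2, a3⟩ := hX' n (hst k)
        have hn1' : 1 ≤ n := by
          have := hst k
          omega
        have hα : 2 ≤ q n := by
          have h5 := hg n
          have h6 : (1 : ℝ) ≤ n := by exact_mod_cast hn1'
          linarith
        set α := q n with hαdef
        set β := α + h α with hβ
        have hαβ : α ≤ β := by linarith
        have hpα : pc q α ≤ n + 1 := by
          by_contra h5
          push Not at h5
          have h6 := (lt_pc hq hg α (n + 1)).1 h5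
          have h7 : q n < q (n + 1) := hq (Nat.lt_succ_self n)
          linarith
        have hpβ : r ≤ pc q β := by
          have h5 : r - 1 < pc q β := (lt_pc hq hg β (r - 1)).2 (en_pred hg h (by linarith))
          omega
        have hpα' : (pc q α : ℝ) ≤ n + 1 := by exact_mod_cast hpα
        have hpβ' : (r : ℝ) ≤ pc q β := by exact_mod_cast hpβ
        have c0 : (pc q x : ℝ) - pc (qh q h n0) x ≤ (r : ℝ) - n - 1 := by
          have h5 : pc q x + n + 1 ≤ r + pc (qh q h n0) x := by omega
          have h6 : ((pc q x + n + 1 : ℕ) : ℝ) ≤ ((r + pc (qh q h n0) x : ℕ) : ℝ) := by exact_mod_cast h5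
          push_cast at h6
          linarith
        have c1 := hC2 α (by linarith)
        have c2 := hC2 β (by linarith)
        have hα0 : 0 < α := by linarith
        have hαδ : 0 < α ^ δ := Real.rpow_pos_of_pos hα0 δ
        have c3 : β ^ δ ≤ 2 ^ δ * α ^ δ := by
          rw [← Real.mul_rpow (by norm_num) hα0.le]
          exact Real.rpow_le_rpow (by linarith) (by linarith) hδ.le
        have hβδ : 0 < β ^ δ := Real.rpow_pos_of_pos (by linarith) δ
        have c1' : C2 * α ^ δ ≤ max C2 0 * α ^ δ := mul_le_mul_of_nonneg_right (le_max_left _ _) hαδ.le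
        have c2' : C2 * β ^ δ ≤ max C2 0 * (2 ^ δ * α ^ δ) :=
          (mul_le_mul_of_nonneg_right (le_max_left _ _) hβδ.le).trans (mul_le_mul_of_nonneg_left c3 hC2')
        have c4 := hMM α β (by linarith) hαβ
        have c5 : B * (β - α) ≤ max B 0 * (max C1 0 * α ^ δ) := by
          have h5 : β - α = h α := by rw [hβ]; ring
          rw [h5]
          have h6 : h α ≤ max C1 0 * α ^ δ :=
            (hC1 α (by linarith)).trans (mul_le_mul_of_nonneg_right (le_max_left _ _) hαδ.le)
          exact (mul_le_mul_of_nonneg_right (le_max_left _ _) (by linarith)).trans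
            (mul_le_mul_of_nonneg_left h6 hB')
        rw [abs_le] at c1 c2
        have c6 : (r : ℝ) - n - 1 ≤ K * α ^ δ := by
          have e : K * α ^ δ = max B 0 * (max C1 0 * α ^ δ) + (max C2 0 * (2 ^ δ * α ^ δ) + max C2 0 * α ^ δ) := by
            rw [hK]
            ring
          rw [e]
          linarith [c1.1, c2.2]
        have c7 : K * α ^ δ ≤ K * x ^ δ :=
          mul_le_mul_of_nonneg_left (Real.rpow_le_rpow hα0.le hqn hδ.le) hK0
        linarith
      · have h1 : (pc q x : ℝ) ≤ pc (qh q h n0) x := by exact_mod_cast hge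
        have h2 : 0 ≤ K * x ^ δ := by positivity
        linarith
    have h1 : (pc (qh q h n0) x : ℝ) ≤ pc q x := by exact_mod_cast hmp.1
    have h2 := (hC2 x hx).trans (mul_le_mul_of_nonneg_right (le_max_left C2 0) hxδ.le)
    rw [abs_le] at h2 ⊢
    have h3 : 0 ≤ K * x ^ δ := by positivity
    constructor
    · linarith [h2.1]
    · linarith [h2.2]
  · -- the starts
    have h1 : ∀ k, 2 ^ k * 2 ≤ st q h n0 k := by
      intro k
      induction k with
      | zero =>
        have h2 := hst 0
        omega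
      | succ k ih =>
        have h2 := st_sq (q := q) h n0 k
        have h3 := en_gt hg h (st q h n0 k)
        have h4 : 2 ≤ st q h n0 k := by
          have := hst k
          omega
        have h5 : st q h n0 k * st q h n0 k ≤ en q h (st q h n0 k) ^ 2 := by
          rw [sq]
          exact Nat.mul_le_mul h3.le h3.le
        have h6 : st q h n0 k * 2 ≤ st q h n0 k * st q h n0 k := Nat.mul_le_mul_left _ h4
        have e : 2 ^ (k + 1) * 2 = 2 ^ k * 2 * 2 := by ring
        omega
    intro k
    have h2 : ((2 ^ k * 2 : ℕ) : ℝ) ≤ (st q h n0 k : ℕ) := by exact_mod_cast h1 k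
    push_cast at h2
    have h3 := hg (st q h n0 k)
    have h4 : (0 : ℝ) < 2 ^ k := by positivity
    change (2 : ℝ) ^ k ≤ q (st q h n0 k)
    linarith
  · -- the lengths
    intro k
    have hen := en_gt hg h (st q h n0 k)
    refine ⟨(hq hen).le, ?_⟩
    change q (en q h (st q h n0 k)) - q (st q h n0 k) ≤
      (2 * A + 2 * C) * √(q (st q h n0 k)) * Real.log (q (st q h n0 k) + 2)
    obtain ⟨a1, a2, a3⟩ := hX' _ (hst k)
    have h5 := en_pred hg h (n := st q h n0 k) (by linarith)
    have h7 : q (en q h (st q h n0 k) - 1) / 2 ≤ q (st q h n0 k) := by linarith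
    have h8 := hn3 (en q h (st q h n0 k) - 1) (by have := hst k; omega) _ h7
    have e3 : en q h (st q h n0 k) - 1 + 1 = en q h (st q h n0 k) := by omega
    rw [e3] at h8
    have hq0 : 0 < q (st q h n0 k) := by
      have := hg (st q h n0 k)
      have : (0 : ℝ) ≤ ((st q h n0 k : ℕ) : ℝ) := Nat.cast_nonneg _
      linarith
    have h9 : q (en q h (st q h n0 k)) - q (st q h n0 k) ≤ 2 * (A * √(q (st q h n0 k)) * Real.log (q (st q h n0 k))) := by
      linarith
    have hq1 : 1 ≤ q (st q h n0 k) := by
      have := hg (st q h n0 k)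
      have : (0 : ℝ) ≤ ((st q h n0 k : ℕ) : ℝ) := Nat.cast_nonneg _
      linarith
    have h10 : Real.log (q (st q h n0 k)) ≤ Real.log (q (st q h n0 k) + 2) := Real.log_le_log hq0 (by linarith)
    have h11 : 0 ≤ Real.log (q (st q h n0 k)) := Real.log_nonneg hq1
    refine h9.trans ?_
    calc 2 * (A * √(q (st q h n0 k)) * Real.log (q (st q h n0 k)))
        = (2 * A) * √(q (st q h n0 k)) * Real.log (q (st q h n0 k)) := by ring
      _ ≤ (2 * A + 2 * C) * √(q (st q h n0 k)) * Real.log (q (st q h n0 k) + 2) := by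
          gcongr
          linarith
  · -- outside the holes
    intro x hx
    have hmp := moved_pc hq hg hMoved x
    refine le_antisymm hmp.1 ?_
    by_contra hlt
    push Not at hlt
    obtain ⟨k, hk⟩ := hin _ (hT x _ le_rfl hlt)
    obtain ⟨b1, b2⟩ := hT x _ le_rfl hlt
    refine hx k ⟨?_, ?_⟩
    · exact ((hq hk.1).le).trans b1
    · exact b2.le.trans (qh_le_en hg h hk)
  · -- inside the holes
    intro k x hxu hxw
    change q (st q h n0 k) ≤ x at hxu
    change x ≤ q (en q h (st q h n0 k)) at hxw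
    change (pc q x : ℝ) - pc (qh q h n0) x ≤ (2 * A + 2 * C) * √(q (st q h n0 k))
    rcases Nat.lt_or_ge (pc (qh q h n0) x) (pc q x) with hlt | hge
    · have hall : ∀ j, q j ≤ x ∧ x < qh q h n0 j → InH q h n0 k j := by
        intro j hj
        obtain ⟨k', hk'⟩ := hin j hj
        rcases lt_trichotomy k k' with h3 | h3 | h3
        · exfalso
          have h4 := st_en hg h n0 h3
          have h6 : q (en q h (st q h n0 k)) < q j := hq (h4.trans hk'.1)
          linarith [hj.1]
        · rw [h3]
          exact hk'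
        · exfalso
          have h4 := st_en hg h n0 h3
          have h5 := qh_le_en hg h hk'
          have h6 : q (en q h (st q h n0 k')) < q (st q h n0 k) := hq h4
          linarith [hj.2]
      have hnr : st q h n0 k < en q h (st q h n0 k) := en_gt hg h _
      have hcard : pc q x - pc (qh q h n0) x ≤ en q h (st q h n0 k) - st q h n0 k - 1 := by
        have h3 : Finset.Ico (pc (qh q h n0) x) (pc q x) ⊆ Finset.Ioo (st q h n0 k) (en q h (st q h n0 k)) := by
          intro j hj
          rw [Finset.mem_Ico] at hj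
          have h4 := hall j (hT x j hj.1 hj.2)
          rw [Finset.mem_Ioo]
          exact h4
        have h4 := Finset.card_le_card h3
        rwa [Nat.card_Ico, Nat.card_Ioo] at h4
      have c0 : (pc q x : ℝ) - pc (qh q h n0) x ≤ ((en q h (st q h n0 k) : ℕ) : ℝ) - (st q h n0 k : ℕ) - 1 := by
        have h5 : pc q x + st q h n0 k + 1 ≤ en q h (st q h n0 k) + pc (qh q h n0) x := by omega
        have h6 : ((pc q x + st q h n0 k + 1 : ℕ) : ℝ) ≤ ((en q h (st q h n0 k) + pc (qh q h n0) x : ℕ) : ℝ) := by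
          exact_mod_cast h5
        push_cast at h6
        linarith
      exact c0.trans (hcnt k)
    · have h1 : (pc q x : ℝ) ≤ pc (qh q h n0) x := by exact_mod_cast hge
      have h2 : 0 ≤ (2 * A + 2 * C) * √(q (st q h n0 k)) := by positivity
      linarith
  · intro x
    exact (moved_pc hq hg hMoved x).1

end Pool.Agent.H73.KT
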