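import Pool.Agent.H73.KZ.Defs

/-!
# KZ: the increments of the counting function
-/

set_option autoImplicit false

open MeasureTheory Filter Topology Set

namespace Pool.Agent.H73.KZ

open Pool.Agent.H49.BZ (Dens md MM)
open Pool.Agent.H49.BP (pc)

variable [Dens]

/-- the number of the members in an interval is at most twice the expected one, up to `O (√b)` -/
theorem pc_inc [DV] {q : ℕ → ℝ} (hcount : ∀ δ : ℝ, 0 < δ → ∃ C : ℝ, ∀ x : ℝ, 1 ≤ x →
    |(pc q x : ℝ) - MM x| ≤ C * x ^ δ) : ∃ C : ℝ, 0 ≤ C ∧ ∀ a b : ℝ, 2 ≤ a → a ≤ b →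
    (pc q b : ℝ) - pc q a ≤ 2 * (b - a) / Real.log a + C * √b := by
  obtain ⟨C, hC⟩ := hcount (1 / 2) (by norm_num)
  have hC0 : 0 ≤ C := by
    have h1 := hC 1 le_rfl
    rw [Real.one_rpow, mul_one] at h1
    exact (abs_nonneg _).trans h1
  refine ⟨2 * C, by positivity, fun a b ha hab => ?_⟩
  have h1 := hC a (by linarith)
  have h2 := hC b (by linarith)
  have h3 := MM_inc_le (a := a) (b := b) (by linarith) hab
  rw [← Real.sqrt_eq_rpow] at h1 h2
  have h4 : C * √a ≤ C * √b := mul_le_mul_of_nonneg_left (Real.sqrt_le_sqrt hab) hC0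
  rw [abs_le] at h1 h2
  linarith [h1.1, h2.2]

end Pool.Agent.H73.KZ
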