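import Pool.Agent.H49.BZ.Cont
import Pool.Agent.H73.KT.Mov

/-!
# KZ: moving few points to the right, for a general density
-/

set_option autoImplicit false

open MeasureTheory Filter Topology Set

namespace Pool.Agent.H73.KZ

open Pool.Agent.H49.BZ (Dens Disc BB)
open Pool.Agent.H49.BP (em em_norm pc pc_set lt_pc pc_mono AA L_ge sum_range_diff)
open Pool.Agent.H73.KT (Moved moved_hg moved_pc le_fin)

/-- `pc q' x ≤ pc q x`, and the indices `pc q' x ≤ j < pc q x` are moved ones with `q j ≤ x`; so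
`‖AA q m x - AA q' m x‖ ≤ 3 B √x ≤ 3 B x ^ (1 / 2 + δ)`. -/
theorem moved_disc [Dens] {q q' : ℕ → ℝ} (hq : StrictMono q) (hg : ∀ n : ℕ, (n : ℝ) + 1 ≤ q n)
    (hm : Moved q q') (hD : Disc q) : Disc q' := by
  have hg' := moved_hg hq hg hm
  obtain ⟨B, hB, hBx⟩ := hm.2.2
  intro δ hδ
  obtain ⟨C, hC0, hC⟩ := hD δ hδ
  refine ⟨C + 3 * B, by positivity, fun m x hx => ?_⟩
  have hsL : 1 ≤ √(Real.log (|(m : ℝ)| + 3)) := Real.one_le_sqrt.2 (L_ge m)
  have hxs : √x ≤ x ^ (1 / 2 + δ) := by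
    rw [Real.sqrt_eq_rpow]
    exact Real.rpow_le_rpow_of_exponent_le hx (by linarith)
  obtain ⟨hp1, hp2⟩ := moved_pc hq hg hm x
  have hU := hBx x hx
  classical
  have key : ‖AA q' m x - AA q m x‖ ≤ 3 * (B * √x) := by
    unfold AA
    have e : ∑ j ∈ Finset.range (pc q' x), em m (q' j) - ∑ j ∈ Finset.range (pc q x), em m (q j) =
        ∑ j ∈ Finset.range (pc q' x), (em m (q' j) - em m (q j)) -
          (∑ j ∈ Finset.range (pc q x), em m (q j) - ∑ j ∈ Finset.range (pc q' x), em m (q j)) := by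
      rw [Finset.sum_sub_distrib]
      ring
    rw [e]
    refine (norm_sub_le _ _).trans ?_
    have a1 : ‖∑ j ∈ Finset.range (pc q x), em m (q j) - ∑ j ∈ Finset.range (pc q' x), em m (q j)‖ ≤ B * √x := by
      refine (sum_range_diff (fun j => (em_norm m _).le) _ _).trans ?_
      rw [abs_of_nonneg (sub_nonneg.2 (by exact_mod_cast hp1))]
      exact hp2.trans hU
    have a2 : ‖∑ j ∈ Finset.range (pc q' x), (em m (q' j) - em m (q j))‖ ≤ 2 * (B * √x) := by
      refine (norm_sum_le _ _).trans ?_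
      have h1 : ∑ j ∈ Finset.range (pc q' x), ‖em m (q' j) - em m (q j)‖ ≤
          ∑ j ∈ Finset.range (pc q' x), (if q' j ≠ q j then (2 : ℝ) else 0) := by
        refine Finset.sum_le_sum fun j _ => ?_
        split_ifs with h2
        · refine (norm_sub_le _ _).trans ?_
          rw [em_norm, em_norm]
          norm_num
        · rw [not_not] at h2
          rw [h2, sub_self, norm_zero]
      refine h1.trans ?_
      rw [← Finset.sum_filter, Finset.sum_const, nsmul_eq_mul]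
      have h3 : (↑((Finset.range (pc q' x)).filter (fun j => q' j ≠ q j)) : Set ℕ) ⊆
          {n : ℕ | q n ≤ x ∧ q' n ≠ q n} := by
        intro j hj
        rw [Finset.mem_coe, Finset.mem_filter, Finset.mem_range] at hj
        exact ⟨(hm.2.1 j).trans ((lt_pc hm.1 hg' x j).1 hj.1), hj.2⟩
      have h4 := ncard_le_ncard h3 ((le_fin hq hg x).subset fun n hn => hn.1)
      rw [ncard_coe_finset] at h4
      have h5 : (((Finset.range (pc q' x)).filter (fun j => q' j ≠ q j)).card : ℝ) ≤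
          ({n : ℕ | q n ≤ x ∧ q' n ≠ q n}.ncard : ℝ) := by exact_mod_cast h4
      linarith
    linarith
  have h0 := hC m x hx
  have hx0 : 0 ≤ x ^ (1 / 2 + δ) := Real.rpow_nonneg (by linarith) _
  calc ‖AA q' m x - BB m x‖ = ‖(AA q' m x - AA q m x) + (AA q m x - BB m x)‖ := by rw [sub_add_sub_cancel]
    _ ≤ ‖AA q' m x - AA q m x‖ + ‖AA q m x - BB m x‖ := norm_add_le _ _
    _ ≤ 3 * (B * √x) + C * x ^ (1 / 2 + δ) * √(Real.log (|(m : ℝ)| + 3)) := add_le_add key h0
    _ ≤ 3 * B * x ^ (1 / 2 + δ) * √(Real.log (|(m : ℝ)| + 3)) +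
        C * x ^ (1 / 2 + δ) * √(Real.log (|(m : ℝ)| + 3)) := by
        refine add_le_add ?_ le_rfl
        have h1 : B * √x ≤ B * x ^ (1 / 2 + δ) := mul_le_mul_of_nonneg_left hxs hB
        have h2 : 3 * B * x ^ (1 / 2 + δ) ≤ 3 * B * x ^ (1 / 2 + δ) * √(Real.log (|(m : ℝ)| + 3)) :=
          le_mul_of_one_le_right (by positivity) hsL
        linarith
    _ = (C + 3 * B) * x ^ (1 / 2 + δ) * √(Real.log (|(m : ℝ)| + 3)) := by ring

end Pool.Agent.H73.KZ
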