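import Pool.Agent.H49.BZ.Final
import Pool.Agent.H49.KZ.Inst
import Pool.Agent.H49.KZ.Z1
import Pool.Agent.H73.KT.Fin
import Pool.Agent.H73.KZ.A2
import Pool.Agent.H73.KZ.Gap
import Pool.Agent.H73.KZ.Hol2
import Pool.Agent.H73.KZ.Mov
import Pool.Agent.H73.KZ.Cra
import Pool.Agent.H73.KZ.Inc

/-!
# KZ: the systems with prescribed zeros, prescribed laws of all constellations and prescribed order of the gaps
-/

set_option autoImplicit false

open Filter Topology MeasureTheory Complex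

namespace Pool.Agent.H73.KZ

open Pool.Agent.H49.BP (gint pc GapLim)
open Pool.Agent.H49.BZ (Dens MM dens Windows Disc SmallErr primeCount intCount RHSystem)
open Pool.Agent.H73.KT (tc Laws)

/-- The zeros of `Z` in the half-plane `Re s > 1 / 3` are the points `1 / 2 ± i γ k`, and the order of such a zero is the number
of the `k` with this ordinate. -/
def HasZeros (Z : ℂ → ℂ) (γ : ℕ → ℝ) : Prop :=
  ∀ s : ℂ, 1 / 3 < s.re → analyticOrderAt Z s = {k | s = 1 / 2 + γ k * I ∨ s = 1 / 2 - γ k * I}.encard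

/-- The point from which on the zero of height `γ k` is felt: `exp (π N / (γ k))` with the least natural number `N` such that
it is at least `(8 k + 9) ^ 2 * (1 + γ k)`. -/
noncomputable def start (γ : ℕ → ℝ) (k : ℕ) : ℝ :=
  Real.exp (Real.pi * ⌈γ k * (2 * Real.log (8 * k + 9) + Real.log (1 + γ k)) / Real.pi⌉₊ / γ k)

/-- The right side of the explicit formula: the integral from `1` to `x` of
`(1 - 1 / u - (u ^ (-1 / 2) - 1 / u) / 2 - ∑ 2 cos (γ k log u) / √u) / log u`, the sum over the `k` with `start γ k ≤ u`. -/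
noncomputable def explicit (γ : ℕ → ℝ) (x : ℝ) : ℝ :=
  ∫ u in (1 : ℝ)..x, (((1 - u⁻¹) - 1 / 2 * ((√u)⁻¹ - u⁻¹)) / Real.log u -
    ∑' k, if start γ k ≤ u then 2 * Real.cos (γ k * Real.log u) / (√u * Real.log u) else 0)

theorem explicit_eq {γ : ℕ → ℝ} (h0 : ∀ k, 0 < γ k) (x : ℝ) :
    explicit γ x = @MM (dens γ h0) x := rfl

/-- from the statements about the count to the system -/
theorem system_of {γ : ℕ → ℝ} (h0 : ∀ k, 0 < γ k) (hm : Monotone γ) (hW : Windows γ) {q : ℕ → ℝ} (hmono : StrictMono q)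
    (hq0 : 1 < q 0) (hg : ∀ j : ℕ, (j : ℝ) + 1 ≤ q j) (hD : @Disc (dens γ h0) q)
    (hI : @SmallErr (dens γ h0) q)
    (hc : ∀ ε : ℝ, 0 < ε → ∃ C : ℝ, ∀ x : ℝ, 1 ≤ x → |(primeCount q x : ℝ) - explicit γ x| ≤ C * x ^ (1 / 2 + ε)) :
    ∃ Z : ℂ → ℂ, RHSystem q Z ∧ HasZeros Z γ := by
  obtain ⟨⟨ρ, hρ, hN⟩, Z, G, hZ1, hZ2, hG1, hG2, hG3, hord⟩ :=
    Pool.Agent.H49.BZ.core_of h0 hm hW hmono hq0 hg hD hI
  refine ⟨Z, ⟨hmono, hq0, fun ε hε => ?_, ⟨ρ, hρ, fun ε hε => ?_⟩, hZ1, hZ2, G, hG1, hG2, fun σ hσ => ?_⟩, hord⟩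
  · obtain ⟨C, hC0, hC⟩ := Pool.Agent.H49.BZ.nd_mass h0 hm hW hε
    obtain ⟨C1, hC1⟩ := hc ε hε
    refine ⟨C1 + C, fun x hx => ?_⟩
    have h1 := hC1 x (by linarith)
    have h2 := hC x hx
    have h4 := abs_add_le ((primeCount q x : ℝ) - explicit γ x) (explicit γ x - ∫ u in (2 : ℝ)..x, (Real.log u)⁻¹)
    have e : ((primeCount q x : ℝ) - explicit γ x) + (explicit γ x - ∫ u in (2 : ℝ)..x, (Real.log u)⁻¹) =
      (primeCount q x : ℝ) - ∫ u in (2 : ℝ)..x, (Real.log u)⁻¹ := by ring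
    rw [e] at h4
    have h2' : |explicit γ x - ∫ u in (2 : ℝ)..x, (Real.log u)⁻¹| ≤ C * x ^ (1 / 2 + ε) := h2
    linarith
  · obtain ⟨C, hC⟩ := hN ε hε
    refine ⟨C, fun x hx => ?_⟩
    have e : intCount q x = {n : ℕ | gint q (n + 1) ≤ x}.ncard := by
      unfold intCount
      have h1 : {n : ℕ | 1 ≤ n ∧ gint q n ≤ x} = (fun n => n + 1) '' {n : ℕ | gint q (n + 1) ≤ x} := by
        ext n
        constructor
        · rintro ⟨h2, h3⟩
          refine ⟨n - 1, ?_, by simp only; omega⟩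
          show gint q (n - 1 + 1) ≤ x
          rw [Nat.sub_add_cancel h2]
          exact h3
        · rintro ⟨k, hk, rfl⟩
          exact ⟨by simp only; omega, hk⟩
      rw [h1, Set.ncard_image_of_injective _ (fun a b hab => by simpa using hab)]
    rw [e]
    exact hC x hx
  · obtain ⟨C, _, hC⟩ := hG3 σ hσ
    exact ⟨C, hC⟩

/-- the system -/
theorem sys_main {γ : ℕ → ℝ} (h0 : ∀ k, 0 < γ k) (hm : Monotone γ) (hW : Windows γ) {n : Finset ℕ → ℝ → ℝ}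
    (hn : Laws n) {h : ℝ → ℝ}
    (hlim : Tendsto (fun x => h x / Real.log x) atTop atTop)
    (hup : ∃ A : ℝ, ∀ᶠ x in atTop, h x ≤ A * √x * Real.log x) :
    ∃ (q : ℕ → ℝ) (Z : ℂ → ℂ), RHSystem q Z ∧ HasZeros Z γ ∧
      (∀ D : Finset ℕ, 0 ∈ D → 2 ≤ D.card → ∀ ε : ℝ, 0 < ε → ∃ C : ℝ, ∀ x : ℝ, 2 ≤ x →
        |(tc q D x : ℝ) - ∫ u in (2 : ℝ)..x, n D u / Real.log u| ≤ C * x ^ (1 / 2 + ε)) ∧
      ((∀ δ : ℝ, 0 < δ → ∃ C : ℝ, ∀ x : ℝ, 1 ≤ x → h x ≤ C * x ^ δ) →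
        ∀ ε : ℝ, 0 < ε → ∃ C : ℝ, ∀ x : ℝ, 1 ≤ x → |(primeCount q x : ℝ) - explicit γ x| ≤ C * x ^ ε) ∧
      Tendsto q atTop atTop ∧ GapLim q h := by
  let _ : Dens := dens γ h0
  have _ : DV := Pool.Agent.H49.BZ.dens_DV h0
  obtain ⟨V, hV⟩ := base_gaps hlim
  obtain ⟨a, S, q, hst, hD, hcount, hlaw⟩ := realise0 hn V
  have hq := hst.2.2.2.1
  obtain ⟨q', hmv, hgap, _, hcount', htr⟩ :=
    Pool.Agent.H73.KT.holes2 hq.1 hq.2.1 (by
      obtain ⟨C, _, hC⟩ := pc_inc hcount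
      exact ⟨C, hC⟩) hlim hup (hV a S q hst)
  have hg' : ∀ k : ℕ, (k : ℝ) + 1 ≤ q' k := fun k => (hq.2.1 k).trans (hmv.2.1 k)
  have hI : SmallErr q' := by
    obtain ⟨u, w, K, hK, h1, h2, h3, h4, h5⟩ := htr
    refine Pool.Agent.H49.BZ.smallErr_of hmv.1 hg' hcount hK h1 (fun k => (h2 k).1) (fun k => (h2 k).2)
      (fun x _ hx => h3 x fun k hk => hx k ⟨hk.1, hk.2⟩) fun k x hx => ?_
    have h6 := h4 k x hx.1 hx.2
    have h7 : (pc q' x : ℝ) ≤ pc q x := by exact_mod_cast h5 x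
    rw [abs_sub_comm, abs_of_nonneg (by linarith)]
    exact h6
  have htop : Tendsto q' atTop atTop := by
    refine tendsto_atTop_mono hg' ?_
    exact tendsto_atTop_add_const_right _ _ tendsto_natCast_atTop_atTop
  have hc : ∀ ε : ℝ, 0 < ε → ∃ C : ℝ, ∀ x : ℝ, 1 ≤ x →
      |(primeCount q' x : ℝ) - explicit γ x| ≤ C * x ^ (1 / 2 + ε) := by
    intro ε hε
    obtain ⟨C, hC⟩ := hcount (1 / 2 + ε) (by linarith)
    obtain ⟨u, w, K, hK, _, _, h3, h4, h5⟩ := htr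
    refine ⟨C + K, fun x hx => ?_⟩
    have h6 : |(pc q' x : ℝ) - pc q x| ≤ K * x ^ (1 / 2 + ε) := by
      have h7 : 0 ≤ K * x ^ (1 / 2 + ε) := mul_nonneg hK (Real.rpow_nonneg (by linarith) _)
      by_cases h8 : ∃ k, u k ≤ x ∧ x ≤ w k
      · obtain ⟨k, hk1, hk2⟩ := h8
        have h9 := h4 k x hk1 hk2
        have h10 : (pc q' x : ℝ) ≤ pc q x := by exact_mod_cast h5 x
        rw [abs_sub_comm, abs_of_nonneg (by linarith)]
        refine h9.trans (mul_le_mul_of_nonneg_left ?_ hK)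
        calc √(u k) ≤ √x := Real.sqrt_le_sqrt hk1
          _ ≤ x ^ (1 / 2 + ε) := by
            rw [Real.sqrt_eq_rpow]
            exact Real.rpow_le_rpow_of_exponent_le hx (by linarith)
      · push Not at h8
        have h9 : pc q' x = pc q x := h3 x fun k hk => absurd hk.2 (not_le.2 (h8 k hk.1))
        rw [h9, sub_self, abs_zero]
        exact h7
    have h11 := hC x hx
    have h12 := abs_add_le ((pc q' x : ℝ) - pc q x) ((pc q x : ℝ) - MM x)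
    have e : ((pc q' x : ℝ) - pc q x) + ((pc q x : ℝ) - MM x) =
        (primeCount q' x : ℝ) - explicit γ x := by
      show _ = (pc q' x : ℝ) - MM x
      ring
    rw [e] at h12
    linarith
  obtain ⟨Z, hZ1, hZ2⟩ := system_of h0 hm hW hmv.1 (hq.2.2.1.trans_le (hmv.2.1 0)) hg'
    (moved_disc hq.1 hq.2.1 hmv hD) hI hc
  refine ⟨q', Z, hZ1, hZ2, fun D hD0 hD2 => ?_, fun hh => ?_, htop, hgap⟩
  · exact Pool.Agent.H73.KT.moved_tuples hq.1 hq.2.1 hmv (hlaw D hD0 hD2)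
  · exact hcount' MM 1 (fun x y hx hxy => by
      rw [one_mul]
      exact Pool.Agent.H49.BZ.MM_sub_le hx hxy) hh hcount


end Pool.Agent.H73.KZ
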