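import Pool.Agent.H73.KZ.Defs

/-!
# W4: the enumeration of the points of the blocks
-/

set_option autoImplicit false

open MeasureTheory Filter Topology Set

namespace Pool.Agent.H73.KZ

open Pool.Agent.H49.BZ (Dens md MM tt md_meas log_pos' md_pos md_nonneg md_le_one md_int MM_sub MM_lt MM_le MM_nonneg
  le_MM_inc tt_one_le MM_tt tt_mono tt_zero tt_ge exists_slot MM_sub_le)
open Pool.Agent.H49.BP (ph ph_abs ph_meas pc lt_pc em em_norm em_meas AA L_ge)
open Pool.Agent.H73.TR (log_half' bint rot un)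
open Pool.Agent.H73.KT hiding tb ln Blocks Enum NearB tb_zero tb_mono tb_one_le tb_two tb_ge ln_pos MM_tb MM_block exists_block ln_ge tt_add_le log_tt_add_le tt_add_sub_le

variable [Dens]

theorem MbE_zero (a : ℕ → ℕ) : Mb a 0 = 0 := by simp [Mb]

theorem MbE_succ (a : ℕ → ℕ) (b : ℕ) : Mb a (b + 1) = Mb a b + (a b + 1) := by
  simp [Mb, Finset.sum_range_succ]

theorem Mb_strictMono (a : ℕ → ℕ) : StrictMono (Mb a) :=
  strictMono_nat_of_lt_succ fun b => by rw [MbE_succ]; omega

theorem Mb_exists (a : ℕ → ℕ) (n : ℕ) : ∃ b, n < Mb a (b + 1) :=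
  ⟨n, lt_of_lt_of_le (Nat.lt_succ_self n) ((Mb_strictMono a).le_apply)⟩

/-- the block of the index `n` -/
noncomputable def bk (a : ℕ → ℕ) (n : ℕ) : ℕ := Nat.find (Mb_exists a n)

theorem bk_lt (a : ℕ → ℕ) (n : ℕ) : n < Mb a (bk a n + 1) := Nat.find_spec (Mb_exists a n)

theorem bk_le (a : ℕ → ℕ) (n : ℕ) : Mb a (bk a n) ≤ n := by
  rcases Nat.eq_zero_or_pos (bk a n) with h | h
  · rw [h, MbE_zero]
    exact Nat.zero_le n
  · have h1 : bk a n - 1 < Nat.find (Mb_exists a n) := Nat.sub_lt h one_pos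
    have h2 := Nat.find_min (Mb_exists a n) h1
    rw [Nat.sub_add_cancel h] at h2
    exact not_lt.mp h2

theorem bk_eq (a : ℕ → ℕ) {b n : ℕ} (h1 : Mb a b ≤ n) (h2 : n < Mb a (b + 1)) : bk a n = b := by
  have h3 := bk_le a n
  have h4 := bk_lt a n
  have h5 : b < bk a n + 1 := (Mb_strictMono a).lt_iff_lt.1 (lt_of_le_of_lt h1 h4)
  have h6 : bk a n < b + 1 := (Mb_strictMono a).lt_iff_lt.1 (lt_of_le_of_lt h3 h2)
  omega

/-- Proof: for `Mb a b ≤ n < Mb a (b + 1)` let `q n` be the element of `S b` of index `n - Mb a b` in increasing order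
(`Finset.orderEmbOfFin`). It is strictly increasing inside a block and from one block to the next. The bound: the elements of
`S b` have distances at least `1`, so the one of index `i` is at least `tb a b + i ≥ Mb a b + 1 + i` (`tt_ge`). -/
theorem enum {a : ℕ → ℕ} {S : ℕ → Finset ℝ} (hS : Blocks a S) : ∃ q : ℕ → ℝ, Enum a S q := by
  classical
  obtain ⟨hc, hm, hg⟩ := hS
  set e : ℕ → ℕ → ℝ := fun b i =>
    if h : i < a b + 1 then (S b).orderEmbOfFin (hc b) ⟨i, h⟩ else 0 with he
  have e1 : ∀ b i, i < a b + 1 → e b i ∈ S b := by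
    intro b i h
    simp only [he, dif_pos h]
    exact Finset.orderEmbOfFin_mem _ _ _
  have e2 : ∀ b i j, i < j → j < a b + 1 → e b i < e b j := by
    intro b i j hij h
    simp only [he, dif_pos h, dif_pos (hij.trans h)]
    exact ((S b).orderEmbOfFin (hc b)).lt_iff_lt.2 (by simpa using hij)
  have e3 : ∀ b i, i < a b + 1 → tb a b + i < e b i := by
    intro b i
    induction i with
    | zero =>
      intro h
      have := (hm b _ (e1 b 0 h)).1
      push_cast
      linarith
    | succ i ih =>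
      intro h
      have h1 := ih (by omega)
      have h2 := hg b _ (e1 b i (by omega)) _ (e1 b (i + 1) h) (e2 b i (i + 1) (by omega) h)
      push_cast
      linarith
  have e4 : ∀ b, ∀ x ∈ S b, ∃ i, i < a b + 1 ∧ e b i = x := by
    intro b x hx
    have h1 : x ∈ Set.range ((S b).orderEmbOfFin (hc b)) := by
      rw [Finset.range_orderEmbOfFin]
      exact hx
    obtain ⟨i, hi⟩ := h1
    refine ⟨i, i.2, ?_⟩
    simp only [he, dif_pos i.2]
    exact hi
  set q : ℕ → ℝ := fun n => e (bk a n) (n - Mb a (bk a n)) with hq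
  have q1 : ∀ b n, Mb a b ≤ n → n < Mb a (b + 1) → q n = e b (n - Mb a b) := by
    intro b n h1 h2
    simp only [hq, bk_eq a h1 h2]
  have q2 : ∀ b n, Mb a b ≤ n → n < Mb a (b + 1) → n - Mb a b < a b + 1 := by
    intro b n h1 h2
    rw [MbE_succ] at h2
    omega
  have q3 : ∀ b n, Mb a b ≤ n → n < Mb a (b + 1) → q n ∈ S b := by
    intro b n h1 h2
    rw [q1 b n h1 h2]
    exact e1 _ _ (q2 b n h1 h2)
  have q4 : ∀ b n, Mb a b ≤ n → n < Mb a (b + 1) → tb a b + ((n - Mb a b : ℕ) : ℝ) < q n := by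
    intro b n h1 h2
    rw [q1 b n h1 h2]
    exact e3 _ _ (q2 b n h1 h2)
  refine ⟨q, strictMono_nat_of_lt_succ fun n => ?_, fun n => ?_, ?_, q3, fun b x hx => ?_⟩
  · have h1 := bk_le a n
    have h2 := bk_lt a n
    rcases Nat.lt_or_ge (n + 1) (Mb a (bk a n + 1)) with h3 | h3
    · rw [q1 _ n h1 h2, q1 _ (n + 1) (h1.trans (Nat.le_succ n)) h3]
      exact e2 _ _ _ (by omega) (q2 _ _ (h1.trans (Nat.le_succ n)) h3)
    · have h4 : n + 1 = Mb a (bk a n + 1) := le_antisymm h2 h3
      have h5 : n + 1 < Mb a (bk a n + 1 + 1) := by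
        rw [h4]
        exact Mb_strictMono a (Nat.lt_succ_self _)
      have h6 := (hm _ _ (q3 _ n h1 h2)).2
      have h7 := (hm _ _ (q3 _ (n + 1) h4.ge h5)).1
      linarith
  · have h1 := bk_le a n
    have h2 := bk_lt a n
    have h3 := q4 _ n h1 h2
    have h4 : ((Mb a (bk a n) : ℕ) : ℝ) + 1 ≤ tb a (bk a n) := tt_ge _
    rw [Nat.cast_sub h1] at h3
    linarith
  · have h2 : 0 < Mb a (0 + 1) := by
      rw [MbE_succ]
      omega
    have h3 := (hm _ _ (q3 0 0 (by rw [MbE_zero]) h2)).1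
    have h4 : tb a 0 = 1 := by
      unfold tb
      rw [MbE_zero, tt_zero]
    linarith
  · obtain ⟨i, hi, hx'⟩ := e4 b x hx
    have h1 : Mb a b ≤ Mb a b + i := Nat.le_add_right _ _
    have h2 : Mb a b + i < Mb a (b + 1) := by
      rw [MbE_succ]
      omega
    refine ⟨Mb a b + i, h1, h2, ?_⟩
    rw [q1 b _ h1 h2, Nat.add_sub_cancel_left]
    exact hx'

/-- sums over the members of the first `J` blocks -/
theorem enum_sum {a : ℕ → ℕ} {S : ℕ → Finset ℝ} {q : ℕ → ℝ} (hS : Blocks a S) (hq : Enum a S q) {M : Type*}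
    [AddCommMonoid M] (g : ℝ → M) (J : ℕ) :
    ∑ n ∈ Finset.range (Mb a J), g (q n) = ∑ b ∈ Finset.range J, ∑ x ∈ S b, g x := by
  obtain ⟨hmono, -, -, hmem, hsurj⟩ := hq
  induction J with
  | zero => simp [MbE_zero]
  | succ J ih =>
    rw [Finset.sum_range_succ (fun b => ∑ x ∈ S b, g x) J, MbE_succ, Finset.sum_range_add, ih]
    refine congrArg (fun z => ∑ b ∈ Finset.range J, ∑ x ∈ S b, g x + z) ?_
    refine Finset.sum_nbij (M := M) (fun i => q (Mb a J + i)) ?_ ?_ ?_ ?_
    · intro i hi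
      rw [Finset.mem_range] at hi
      exact hmem J _ (Nat.le_add_right _ _) (by rw [MbE_succ]; omega)
    · intro i _ j _ h
      have := hmono.injective h
      omega
    · intro x hx
      obtain ⟨n, h1, h2, h3⟩ := hsurj J x (by simpa using hx)
      rw [MbE_succ] at h2
      refine ⟨n - Mb a J, ?_, ?_⟩
      · simp only [Finset.coe_range, Set.mem_Iio]
        omega
      · simp only
        rw [Nat.add_sub_cancel' h1]
        exact h3
    · intro i _
      rfl

/-- the count of the members up to `x`, for `x` in the block `J` -/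
theorem pc_block {a : ℕ → ℕ} {S : ℕ → Finset ℝ} {q : ℕ → ℝ} (hS : Blocks a S) (hq : Enum a S q) {x : ℝ} {J : ℕ}
    (h1 : tb a J ≤ x) (h2 : x < tb a (J + 1)) : Mb a J ≤ pc q x ∧ pc q x ≤ Mb a J + (a J + 1) := by
  obtain ⟨hc, hm, hg⟩ := hS
  obtain ⟨hmono, hge, -, hmem, -⟩ := hq
  have htb : Monotone (tb a) := fun b c h => tt_mono.monotone ((Mb_strictMono a).monotone h)
  constructor
  · rcases Nat.eq_zero_or_pos (Mb a J) with h | h
    · rw [h]
      exact Nat.zero_le _
    · have h3 : Mb a J - 1 < pc q x := by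
        rw [lt_pc hmono hge]
        have h4 := bk_le a (Mb a J - 1)
        have h5 := bk_lt a (Mb a J - 1)
        have h6 : bk a (Mb a J - 1) < J := (Mb_strictMono a).lt_iff_lt.1 (by omega)
        have h7 := (hm _ _ (hmem _ _ h4 h5)).2
        exact h7.trans ((htb h6).trans h1)
      omega
  · rw [← MbE_succ]
    by_contra h3
    push Not at h3
    rw [lt_pc hmono hge] at h3
    have h4 := (hm _ _ (hmem (J + 1) _ le_rfl (Mb_strictMono a (Nat.lt_succ_self _)))).1
    linarith

end Pool.Agent.H73.KZ
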