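import Pool.Agent.H73.KZ.Dsc
import Pool.Agent.H73.KZ.Cnt
import Pool.Agent.H73.KT.A1

/-!
# KZ: the avoided sets and the integrals of the laws for a general density
-/

set_option autoImplicit false

open MeasureTheory Filter Topology Set

namespace Pool.Agent.H73.KZ

open Pool.Agent.H49.BZ (Dens Disc md MM tt md_meas log_pos' md_pos md_nonneg md_le_one md_int MM_sub MM_lt MM_le MM_nonneg
  le_MM_inc tt_one_le MM_tt tt_mono tt_zero tt_ge exists_slot MM_sub_le le_md)
open Pool.Agent.H49.BP (ph ph_abs ph_meas pc lt_pc em em_norm em_meas AA L_ge)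
open Pool.Agent.H73.TR (log_half' bint rot un)
open Pool.Agent.H73.KT (pat mult mx Mb off pos cfg gs cnt cst Slow tc Mb_zero Mb_succ Mb_mono le_Mb exists_index growth
  slow_log thresholds rot_count mem_pat pat_ne mx_le le_mx ins_card)

variable [Dens]

/-! ### The avoided sets -/

/-- the points of the block for the choice `x` -/
noncomputable def SS (a : ℕ → ℕ) (b : ℕ) (x : Finset ℕ × ℝ) : Finset ℝ :=
  cfg (a b) (tb a b) (tb a (b + 1)) x.1 x.2

/-- the choices that create integer distances between the points of the block and those of the previous block -/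
def av (a : ℕ → ℕ) (b : ℕ) (y : Finset ℕ × ℝ) : Set (Finset ℕ × ℝ) :=
  {x | ∃ z ∈ SS a (b - 1) y, ∃ w ∈ SS a b x, ∃ k : ℕ, w = z + (k : ℝ)}

theorem av_count (a : ℕ → ℕ) (b : ℕ) (y : Finset ℕ × ℝ) : (av a b y).Countable := by
  have hab : tb a b < tb a (b + 1) := tb_mono (Nat.lt_succ_self b)
  have h1 : av a b y ⊆ ⋃ D : Finset ℕ, ⋃ c ∈ off (a b) (tb a (b + 1) - tb a b) D, ⋃ z ∈ SS a (b - 1) y, ⋃ k : ℕ,
      (fun v : ℝ => (D, v)) '' {v : ℝ | rot (tb a b) (tb a (b + 1)) c (pos (tb a b) (tb a (b + 1)) v) = z + (k : ℝ)} := by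
    rintro ⟨D, v⟩ ⟨z, hz, w, hw, k, hk⟩
    unfold SS cfg at hw
    rw [Finset.mem_image] at hw
    obtain ⟨c, hc, rfl⟩ := hw
    simp only [mem_iUnion]
    exact ⟨D, c, hc, z, hz, k, v, hk, rfl⟩
  refine Countable.mono h1 ?_
  refine countable_iUnion fun D => ?_
  refine (Finset.countable_toSet _).biUnion fun c _ => ?_
  refine (Finset.countable_toSet _).biUnion fun z _ => ?_
  exact countable_iUnion fun k => (rot_count hab c _).image _

/-! ### The weight of the laws -/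

/-- the weight of the laws -/
noncomputable def lw (u : ℝ) : ℝ := if 2 ≤ u then (Real.log u)⁻¹ else 0

omit [Dens] in
theorem lw_meas : Measurable lw :=
  Measurable.ite measurableSet_Ici Real.measurable_log.inv measurable_const

omit [Dens] in
theorem lw_nonneg (u : ℝ) : 0 ≤ lw u := by
  unfold lw
  split_ifs with h
  · exact inv_nonneg.2 (Real.log_nonneg (by linarith))
  · exact le_rfl

omit [Dens] in
theorem lw_le_two (u : ℝ) : lw u ≤ 2 := by
  unfold lw
  split_ifs with h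
  · have h1 : Real.log 2 ≤ Real.log u := Real.log_le_log two_pos h
    have h2 := Real.log_two_gt_d9
    rw [inv_le_comm₀ (by linarith) two_pos]
    linarith
  · norm_num

theorem lw_le {u : ℝ} (hu : 1 ≤ u) : lw u ≤ 8 * md u := by
  unfold lw
  split_ifs with h
  · have h1 := le_md h
    have h2 : 0 < Real.log u := Real.log_pos (by linarith)
    have h3 : 1 / (8 * Real.log u) = (Real.log u)⁻¹ / 8 := by
      field_simp
    rw [h3] at h1
    linarith
  · have := md_nonneg hu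
    linarith

omit [Dens] in
theorem flw_int {f : ℝ → ℝ} (hf : Measurable f) (hf0 : ∀ u, 0 ≤ f u) {B : ℝ} (hB : ∀ u, f u ≤ B) (x y : ℝ) :
    IntervalIntegrable (fun u => f u * lw u) volume x y := by
  have h1 : IntervalIntegrable (fun _ : ℝ => B * 2) volume x y := intervalIntegrable_const
  refine h1.mono_fun (hf.mul lw_meas).aestronglyMeasurable ?_
  refine Eventually.of_forall fun u => ?_
  beta_reduce
  rw [Real.norm_of_nonneg (mul_nonneg (hf0 u) (lw_nonneg u))]
  have h2 : 0 ≤ B := (hf0 u).trans (hB u)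
  rw [Real.norm_of_nonneg (by positivity)]
  exact mul_le_mul (hB u) (lw_le_two u) (lw_nonneg u) h2

/-- the integral over a piece of a block -/
theorem flw_le {f : ℝ → ℝ} (hf : Measurable f) (hf0 : ∀ u, 0 ≤ f u) {B c : ℝ} (hB : ∀ u, f u ≤ B) {x y : ℝ} (hx : 1 ≤ x)
    (hxy : x ≤ y) (hc : ∀ u ∈ Icc x y, 8 * f u ≤ c) : ∫ u in x..y, f u * lw u ≤ c * (MM y - MM x) := by
  have hy : 1 ≤ y := hx.trans hxy
  have h3 := intervalIntegral.integral_mono_on hxy (flw_int hf hf0 hB x y) ((md_int hx hy).const_mul c) (fun u hu => by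
    have hu1 : 1 ≤ u := hx.trans hu.1
    have h4 := mul_le_mul_of_nonneg_left (lw_le hu1) (hf0 u)
    have h5 := mul_le_mul_of_nonneg_right (hc u hu) (md_nonneg hu1)
    calc f u * lw u ≤ f u * (8 * md u) := h4
      _ = 8 * f u * md u := by ring
      _ ≤ c * md u := h5)
  rw [intervalIntegral.integral_const_mul, ← MM_sub hx hy] at h3
  exact h3

/-! ### The integrals of the laws -/

theorem law_int {a : ℕ → ℕ} {f : ℝ → ℝ} (hf : Measurable f) (hf0 : ∀ u, 0 ≤ f u) {B : ℝ}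
    (hfB : ∀ u, f u ≤ B) {x : ℝ} {J : ℕ} (hx : 2 ≤ x) (h1 : tb a J ≤ x) (h2 : x < tb a (J + 1)) :
    |∑ b ∈ Finset.range J, (∫ u in (tb a b)..(tb a (b + 1)), f u * lw u) - ∫ u in (2 : ℝ)..x, f u / Real.log u| ≤
      8 * B * ((a J : ℝ) + 1) := by
  have hx1' : 1 ≤ x := by linarith
  have hB0 : 0 ≤ B := (hf0 0).trans (hfB 0)
  have hsumI : ∑ b ∈ Finset.range J, (∫ u in (tb a b)..(tb a (b + 1)), f u * lw u) =
      ∫ u in (1 : ℝ)..(tb a J), f u * lw u := by
    have h1 := intervalIntegral.sum_integral_adjacent_intervals (a := fun j => tb a j) (n := J) (μ := volume)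
      (f := fun u => f u * lw u) (fun k _ => flw_int hf hf0 hfB _ _)
    simp only [tb_zero] at h1
    exact h1
  have a1 : (∫ u in (1 : ℝ)..x, f u * lw u) - (∫ u in (1 : ℝ)..(tb a J), f u * lw u) =
      ∫ u in (tb a J)..x, f u * lw u :=
    intervalIntegral.integral_interval_sub_left (flw_int hf hf0 hfB _ _) (flw_int hf hf0 hfB _ _)
  have a2 : 0 ≤ ∫ u in (tb a J)..x, f u * lw u :=
    intervalIntegral.integral_nonneg h1 fun u _ => mul_nonneg (hf0 u) (lw_nonneg u)
  have a3 : ∫ u in (tb a J)..x, f u * lw u ≤ 8 * B * ((a J : ℝ) + 1) := by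
    have h3 := flw_le hf hf0 hfB (tb_one_le (a := a) J) h1 (c := 8 * B) (fun u _ => by
      have := hfB u
      linarith)
    refine h3.trans (mul_le_mul_of_nonneg_left ?_ (by positivity))
    have h5 := MM_le (a := x) hx1' h2.le
    have h6 := MM_block (a := a) J
    linarith
  have a4 : ∫ u in (1 : ℝ)..x, f u * lw u = ∫ u in (2 : ℝ)..x, f u / Real.log u := by
    have h3 : ∫ u in (1 : ℝ)..x, f u * lw u =
        (∫ u in (1 : ℝ)..2, f u * lw u) + ∫ u in (2 : ℝ)..x, f u * lw u :=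
      (intervalIntegral.integral_add_adjacent_intervals (flw_int hf hf0 hfB _ _) (flw_int hf hf0 hfB _ _)).symm
    have h4 : ∫ u in (1 : ℝ)..2, f u * lw u = 0 := by
      rw [intervalIntegral.integral_of_le (by norm_num), integral_Ioc_eq_integral_Ioo]
      refine setIntegral_eq_zero_of_forall_eq_zero fun u hu => ?_
      have h5 : ¬ (2 : ℝ) ≤ u := not_le.2 hu.2
      unfold lw
      rw [if_neg h5, mul_zero]
    rw [h3, h4, zero_add]
    refine intervalIntegral.integral_congr fun u hu => ?_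
    rw [uIcc_of_le hx] at hu
    beta_reduce
    unfold lw
    rw [if_pos hu.1, div_eq_mul_inv]
  rw [hsumI, ← a4, abs_sub_comm, a1, abs_of_nonneg a2]
  exact a3

/-! ### The thresholds -/

theorem thresholdsZ [DV] {n : Finset ℕ → ℝ → ℝ} (hlim : ∀ D : Finset ℕ, 0 ∈ D → 2 ≤ D.card → Tendsto (n D) atTop (𝓝 0))
    (hsub : ∀ D D' : Finset ℕ, 0 ∈ D → 2 ≤ D.card → 0 ∈ D' → D ≠ D' → mult D D' ≠ 0 →
      ∀ c : ℝ, 0 < c → ∀ᶠ u in atTop, n D' u ≤ c * n D u) :
    ∃ U : ℕ → ℕ, ∀ a, 2 ^ a ≤ U a ∧ (∀ k, U a ≤ k → 2 * ((a : ℝ) + 2) ^ 2 < tt (k + 1) - tt k) ∧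
      ∀ u : ℝ, (U a : ℝ) ≤ u → (∀ D ∈ pat a, 8 * n D u ≤ cst a) ∧
        ∀ D ∈ pat a, ∀ D' ∈ pat a, D ≠ D' → mult D D' ≠ 0 → n D' u ≤ cst a * n D u := by
  obtain ⟨U, hU⟩ := thresholds (n := fun D u => 8 * n D u) (fun D h0 h2 => by
    have h3 := (hlim D h0 h2).const_mul 8
    rwa [mul_zero] at h3) (fun D D' h0 h2 h0' hne hm c hc => by
      filter_upwards [hsub D D' h0 h2 h0' hne hm c hc] with u hu
      linarith)
  choose n0 hn0 using fun a : ℕ => sub_len (2 * ((a : ℝ) + 2) ^ 2)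
  refine ⟨fun a => max (U a) (n0 a), fun a => ⟨(hU a).1.trans (le_max_left _ _),
    fun k hk => hn0 a k ((le_max_right _ _).trans hk), fun u hu => ?_⟩⟩
  have hu' : (U a : ℝ) ≤ u := by
    have h3 : ((U a : ℕ) : ℝ) ≤ ((max (U a) (n0 a) : ℕ) : ℝ) := by exact_mod_cast le_max_left _ _
    exact h3.trans hu
  obtain ⟨h3, h4⟩ := (hU a).2.2 u hu'
  refine ⟨h3, fun D hD D' hD' hne hm => ?_⟩
  have h5 := h4 D hD D' hD' hne hm
  linarith

end Pool.Agent.H73.KZ
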