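import Pool.Agent.H49.BZ.Cont
import Pool.Agent.H49.BZ.Samp
import Pool.Agent.H73.KT.Inv
import Pool.Agent.H73.KT.Cfg
import Pool.Agent.H73.KT.Mix
import Pool.Agent.H73.KT.Mea
import Pool.Agent.H73.KT.Der
import Pool.Agent.H73.KT.Thr
import Pool.Agent.H73.KT.Slb

/-!
# KZ: densities of bounded variation: the base facts
-/

set_option autoImplicit false

open MeasureTheory Filter Topology Set

namespace Pool.Agent.H73.KZ

open Pool.Agent.H49.BZ (Dens md MM tt md_meas log_pos' md_pos md_nonneg md_le_one md_int MM_sub MM_lt MM_le MM_nonneg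
  le_MM_inc tt_one_le MM_tt tt_mono tt_zero tt_ge exists_slot MM_sub_le)
open Pool.Agent.H73.TR (log_half' bint)

/-- further conditions on the density -/
class DV [Dens] : Prop where
  upp : ∀ u : ℝ, 1 < u → md u ≤ 2 / Real.log u
  var : ∃ (V : ℝ → ℝ) (C : ℝ), 0 ≤ C ∧ (∀ u v : ℝ, 2 ≤ u → u ≤ v → |md u - md v| ≤ V v - V u) ∧
    ∀ x : ℝ, 2 ≤ x → 0 ≤ V x ∧ V x ≤ C * √x

variable [Dens] [DV]

theorem md_le {u : ℝ} (hu : 1 < u) : md u ≤ 2 / Real.log u := DV.upp u hu

theorem MM_inc_le {a b : ℝ} (ha : 1 < a) (hab : a ≤ b) : MM b - MM a ≤ 2 * (b - a) / Real.log a := by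
  rw [MM_sub ha.le (by linarith)]
  have hl := log_pos' ha
  have h1 := intervalIntegral.integral_mono_on hab (md_int ha.le (by linarith))
    (intervalIntegrable_const (c := 2 / Real.log a)) (fun x hx => by
      refine (md_le (by linarith [hx.1])).trans ?_
      exact div_le_div_of_nonneg_left (by norm_num) hl (Real.log_le_log (by linarith) hx.1))
  refine h1.trans (le_of_eq ?_)
  rw [intervalIntegral.integral_const, smul_eq_mul]
  ring

omit [DV] in
theorem tt_two {j : ℕ} (hj : 1 ≤ j) : 2 ≤ tt j := by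
  have h1 := tt_ge j
  have h2 : (1 : ℝ) ≤ j := by exact_mod_cast hj
  linarith

omit [Dens] [DV] in
theorem log_le_16 {y : ℝ} (hy : 0 < y) : Real.log y ≤ y / 16 + 2 := by
  have h1 : Real.log y = Real.log (y / 16) + Real.log 16 := by
    rw [← Real.log_mul (by positivity) (by norm_num)]
    congr 1
    ring
  have h2 := Real.log_le_sub_one_of_pos (x := y / 16) (by positivity)
  have h3 : Real.log 16 ≤ 3 := by
    have : (16 : ℝ) = 2 ^ (4 : ℕ) := by norm_num
    rw [this, Real.log_pow]
    have := Real.log_two_lt_d9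
    push_cast
    linarith
  linarith

omit [DV] in
theorem tt_succ_sub_le {j : ℕ} (hj : 1 ≤ j) : tt (j + 1) - tt j ≤ 8 * Real.log (tt (j + 1)) := by
  have h1 := le_MM_inc (tt_two hj) (tt_mono.monotone (Nat.le_succ j))
  rw [MM_tt, MM_tt] at h1
  have h2 := log_pos' (u := tt (j + 1)) (by linarith [tt_two (j := j + 1) (by omega)])
  rw [div_le_iff₀ (by positivity)] at h1
  push_cast at h1
  linarith

omit [DV] in
theorem tt_succ_le {j : ℕ} (hj : 1 ≤ j) : tt (j + 1) ≤ 18 * tt j := by
  have h1 := tt_succ_sub_le hj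
  have h2 := log_le_16 (y := tt (j + 1)) (by linarith [tt_one_le (j + 1)])
  have h3 := tt_two hj
  linarith

omit [DV] in
theorem log_tt_succ_le {j : ℕ} (hj : 1 ≤ j) : Real.log (tt (j + 1)) ≤ 6 * Real.log (tt j) := by
  have h1 := Real.log_le_log (by linarith [tt_one_le (j + 1)]) (tt_succ_le hj)
  rw [Real.log_mul (by norm_num) (by linarith [tt_one_le j])] at h1
  have h2 : Real.log 18 ≤ 5 * Real.log (tt j) := by
    have h3 : Real.log 18 ≤ Real.log 32 := Real.log_le_log (by norm_num) (by norm_num)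
    have : (32 : ℝ) = 2 ^ (5 : ℕ) := by norm_num
    rw [this, Real.log_pow] at h3
    have h4 := Real.log_le_log two_pos (tt_two hj)
    push_cast at h3
    linarith
  linarith

omit [DV] in
theorem slot_le {j : ℕ} (hj : 1 ≤ j) : tt (j + 1) - tt j ≤ 48 * Real.log (tt j) := by
  have h1 := tt_succ_sub_le hj
  have h2 := log_tt_succ_le hj
  linarith

theorem sub_len (K : ℝ) : ∃ n0 : ℕ, ∀ n, n0 ≤ n → K < tt (n + 1) - tt n := by
  obtain ⟨n0, hn0⟩ := exists_nat_gt (Real.exp (2 * |K| + 1))
  refine ⟨n0, fun n hn => ?_⟩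
  have h1 := tt_ge n
  have h2 : (n0 : ℝ) ≤ n := by exact_mod_cast hn
  have h3 : Real.exp (2 * |K| + 1) < tt n := by linarith
  have h4 : 2 * |K| + 1 < Real.log (tt n) := by
    rw [Real.lt_log_iff_exp_lt (by linarith [tt_one_le n])]
    exact h3
  have h5 : 1 < tt n := by
    have := Real.add_one_le_exp (2 * |K| + 1)
    have := abs_nonneg K
    linarith
  have h6 := MM_inc_le h5 (tt_mono.monotone (Nat.le_succ n))
  rw [MM_tt, MM_tt] at h6
  push_cast at h6
  have h7 : 0 < Real.log (tt n) := by linarith [abs_nonneg K]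
  rw [le_div_iff₀ h7] at h6
  have := le_abs_self K
  linarith

omit [DV] in
theorem bmd_int {g : ℝ → ℝ} (hg : Measurable g) (hb : ∀ u, |g u| ≤ 1) {a b : ℝ} (ha : 1 ≤ a) (hb' : 1 ≤ b) :
    IntervalIntegrable (fun u => g u * md u) volume a b := by
  have h1 := md_int ha hb'
  refine h1.mono_fun (hg.mul md_meas).aestronglyMeasurable ?_
  refine Eventually.of_forall fun u => ?_
  beta_reduce
  rw [norm_mul, Real.norm_eq_abs (g u)]
  exact mul_le_of_le_one_left (norm_nonneg _) (hb u)

omit [DV] in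
/-- averages against the density and against the length -/
theorem avg_bd {g : ℝ → ℝ} (hg : Measurable g) (hb : ∀ u, |g u| ≤ 1) {α β ω : ℝ} (hα : 2 ≤ α) (hβ : α < β)
    (hV : ∀ u ∈ Icc α β, ∀ w ∈ Icc α β, |md u - md w| ≤ ω) :
    |(MM β - MM α) * (β - α)⁻¹ * (∫ y in α..β, g y) - ∫ y in α..β, g y * md y| ≤ (β - α) * ω := by
  set c := (MM β - MM α) * (β - α)⁻¹ with hc
  have hβα : 0 < β - α := by linarith
  have hmd := md_int (a := α) (b := β) (by linarith) (by linarith)
  have hcu : ∀ u ∈ Icc α β, |c - md u| ≤ ω := by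
    intro u hu
    have h1 : MM β - MM α - (β - α) * md u = ∫ y in α..β, (md y - md u) := by
      rw [intervalIntegral.integral_sub hmd intervalIntegrable_const, intervalIntegral.integral_const, smul_eq_mul,
        MM_sub (by linarith) (by linarith)]
    have h2 : |∫ y in α..β, (md y - md u)| ≤ ω * |β - α| := by
      rw [← Real.norm_eq_abs]
      refine intervalIntegral.norm_integral_le_of_norm_le_const fun y hy => ?_
      rw [uIoc_of_le hβ.le] at hy
      rw [Real.norm_eq_abs]
      exact hV y ⟨hy.1.le, hy.2⟩ u hu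
    have h3 : c - md u = (MM β - MM α - (β - α) * md u) * (β - α)⁻¹ := by
      rw [hc]
      field_simp
    rw [h3, h1, abs_mul, abs_of_pos (inv_pos.2 hβα), ← div_eq_mul_inv, div_le_iff₀ hβα]
    rw [abs_of_pos hβα] at h2
    exact h2
  have h4 : c * (∫ y in α..β, g y) - ∫ y in α..β, g y * md y = ∫ y in α..β, g y * (c - md y) := by
    rw [← intervalIntegral.integral_const_mul, ← intervalIntegral.integral_sub
      ((bint hg hb α β).const_mul c) (bmd_int hg hb (by linarith) (by linarith))]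
    refine intervalIntegral.integral_congr fun y _ => ?_
    beta_reduce
    ring
  rw [h4, ← Real.norm_eq_abs]
  have h5 : ‖∫ y in α..β, g y * (c - md y)‖ ≤ ω * |β - α| := by
    refine intervalIntegral.norm_integral_le_of_norm_le_const fun y hy => ?_
    rw [uIoc_of_le hβ.le] at hy
    rw [norm_mul, Real.norm_eq_abs, Real.norm_eq_abs]
    calc |g y| * |c - md y| ≤ 1 * ω :=
          mul_le_mul (hb y) (hcu y ⟨hy.1.le, hy.2⟩) (abs_nonneg _) zero_le_one
      _ = _ := one_mul _
  refine h5.trans (le_of_eq ?_)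
  rw [abs_of_pos hβα]
  ring

end Pool.Agent.H73.KZ
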