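import Pool.Agent.H73.KZ.Base

/-!
# KZ: the blocks for a general density
-/

set_option autoImplicit false

open MeasureTheory Filter Topology Set

namespace Pool.Agent.H73.KZ

open Pool.Agent.H49.BZ (Dens md MM tt md_meas log_pos' md_pos md_nonneg md_le_one md_int MM_sub MM_lt MM_le MM_nonneg
  le_MM_inc tt_one_le MM_tt tt_mono tt_zero tt_ge exists_slot MM_sub_le)
open Pool.Agent.H49.BP (ph)
open Pool.Agent.H73.TR (log_half' bint)
open Pool.Agent.H73.KT (Mb Slow Mb_zero Mb_succ Mb_mono le_Mb exists_index growth slow_log)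

variable [Dens]

/-- the ends of the blocks -/
noncomputable def tb (a : ℕ → ℕ) (b : ℕ) : ℝ := tt (Mb a b)

/-- the length of the block -/
noncomputable def ln (a : ℕ → ℕ) (b : ℕ) : ℝ := tb a (b + 1) - tb a b

/-- `S b` is a set of `a b + 1` points of the block `b` with mutual distances at least `1` -/
def Blocks (a : ℕ → ℕ) (S : ℕ → Finset ℝ) : Prop :=
  (∀ b, (S b).card = a b + 1) ∧ (∀ b, ∀ x ∈ S b, tb a b < x ∧ x ≤ tb a (b + 1)) ∧
    ∀ b, ∀ x ∈ S b, ∀ y ∈ S b, x < y → x + 1 ≤ y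

omit [Dens] in
/-- `q` enumerates the points of the blocks -/
def Enum (a : ℕ → ℕ) (S : ℕ → Finset ℝ) (q : ℕ → ℝ) : Prop :=
  StrictMono q ∧ (∀ n : ℕ, (n : ℝ) + 1 ≤ q n) ∧ 1 < q 0 ∧
    (∀ b n, Mb a b ≤ n → n < Mb a (b + 1) → q n ∈ S b) ∧
    ∀ b, ∀ x ∈ S b, ∃ n, Mb a b ≤ n ∧ n < Mb a (b + 1) ∧ q n = x

/-- the twisted sums over the points of the blocks are close to the means -/
def NearB (a : ℕ → ℕ) (S : ℕ → Finset ℝ) : Prop := ∀ δ : ℝ, 0 < δ → ∃ C : ℝ, 0 ≤ C ∧ ∀ (m : ℤ) (s : Bool) (J : ℕ),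
  |∑ b ∈ Finset.range J, (∑ x ∈ S b, ph m s x -
    ((a b : ℝ) + 1) * ((ln a b)⁻¹ * ∫ y in (tb a b)..(tb a (b + 1)), ph m s y))| ≤
    C * (J : ℝ) ^ (1 / 2 + δ) * √(Real.log (|(m : ℝ)| + 3))

variable {a : ℕ → ℕ}

theorem tb_zero : tb a 0 = 1 := by
  unfold tb
  rw [Mb_zero, tt_zero]

theorem tb_mono : StrictMono (tb a) := fun _ _ h => tt_mono (Mb_mono h)

theorem tb_one_le (b : ℕ) : 1 ≤ tb a b := tt_one_le _

theorem tb_two {b : ℕ} (hb : 1 ≤ b) : 2 ≤ tb a b := tt_two (hb.trans (le_Mb b))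

theorem tb_ge (b : ℕ) : (b : ℝ) + 1 ≤ tb a b := by
  have h1 := tt_ge (Mb a b)
  have h2 : (b : ℝ) ≤ Mb a b := by exact_mod_cast le_Mb b
  unfold tb
  linarith

theorem ln_pos (b : ℕ) : 0 < ln a b := by
  unfold ln
  have := tb_mono (a := a) (Nat.lt_succ_self b)
  simp only [Nat.succ_eq_add_one] at this
  linarith

theorem MM_tb (b : ℕ) : MM (tb a b) = Mb a b := MM_tt _

theorem MM_block (b : ℕ) : MM (tb a (b + 1)) - MM (tb a b) = (a b : ℝ) + 1 := by
  rw [MM_tb, MM_tb, Mb_succ]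
  push_cast
  ring

theorem exists_block {x : ℝ} (hx : 1 ≤ x) : ∃ J : ℕ, tb a J ≤ x ∧ x < tb a (J + 1) := by
  obtain ⟨n, h1, h2⟩ := exists_slot hx
  obtain ⟨b, h3, h4⟩ := exists_index (a := a) n
  refine ⟨b, ?_, ?_⟩
  · exact (tt_mono.monotone h3).trans h1
  · exact h2.trans_le (tt_mono.monotone h4)

theorem ln_ge [DV] (K : ℝ) : ∃ b0 : ℕ, ∀ b, b0 ≤ b → K < ln a b := by
  obtain ⟨n0, hn0⟩ := sub_len K
  refine ⟨n0, fun b hb => ?_⟩
  have h1 := hn0 (Mb a b) (hb.trans (le_Mb b))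
  have h2 : tt (Mb a b + 1) ≤ tt (Mb a (b + 1)) := tt_mono.monotone (by rw [Mb_succ]; omega)
  unfold ln tb
  linarith

theorem tt_add_le {M : ℕ} (hM : 1 ≤ M) (i : ℕ) : tt (M + i) ≤ 18 ^ i * tt M := by
  induction i with
  | zero => simp
  | succ i ih =>
    have h1 := tt_succ_le (j := M + i) (by omega)
    calc tt (M + (i + 1)) = tt (M + i + 1) := rfl
      _ ≤ 18 * tt (M + i) := h1
      _ ≤ 18 * (18 ^ i * tt M) := by linarith
      _ = _ := by ring

theorem log_tt_add_le {M : ℕ} (hM : 1 ≤ M) (i : ℕ) : Real.log (tt (M + i)) ≤ i * Real.log 18 + Real.log (tt M) := by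
  have h1 : 0 < tt M := by linarith [tt_one_le M]
  have h2 := Real.log_le_log (by linarith [tt_one_le (M + i)]) (tt_add_le hM i)
  rw [Real.log_mul (by positivity) h1.ne', Real.log_pow] at h2
  exact h2

theorem tt_add_sub_le {M : ℕ} (hM : 1 ≤ M) (i : ℕ) :
    tt (M + i) - tt M ≤ 48 * i * (i * Real.log 18 + Real.log (tt M)) := by
  induction i with
  | zero => simp
  | succ i ih =>
    have h1 := slot_le (j := M + i) (by omega)
    have h2 := log_tt_add_le hM i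
    have h3 : 0 ≤ Real.log 18 := Real.log_nonneg (by norm_num)
    have h4 : (0 : ℝ) ≤ i := Nat.cast_nonneg i
    have e : tt (M + (i + 1)) = tt (M + i + 1) := rfl
    rw [e]
    push_cast
    nlinarith [mul_nonneg (by linarith : (0 : ℝ) ≤ (i : ℝ) + 1) h3]

/-- the length of a block in terms of the logarithm -/
theorem ln_log2 (ha : Slow a) {b : ℕ} (hb : 1 ≤ b) : ln a b ≤ 1440 * Real.log (tb a b) ^ 2 := by
  have hM : 1 ≤ Mb a b := hb.trans (le_Mb b)
  have hx2 : 2 ≤ tb a b := tb_two hb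
  set L : ℝ := Real.log (tb a b) with hL
  have hlog2 := Real.log_two_gt_d9
  have hL2 : Real.log 2 ≤ L := Real.log_le_log two_pos hx2
  have h1 : (a b : ℝ) * Real.log 2 ≤ L := slow_log ha b (by linarith) (by linarith [tb_ge (a := a) b])
  have h2 : (a b : ℝ) + 1 ≤ 3 * L := by
    have h3 : ((a b : ℝ) + 1) * Real.log 2 ≤ 2 * L := by linarith
    have h4 : (0 : ℝ) ≤ (a b : ℝ) + 1 := by positivity
    nlinarith
  have hL0 : 0 < L := by linarith
  have hlog18 : Real.log 18 ≤ 3 := by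
    have h3 : Real.log 18 ≤ Real.log 20 := Real.log_le_log (by norm_num) (by norm_num)
    have h4 : Real.log 20 ≤ 3 := by
      rw [Real.log_le_iff_le_exp (by norm_num)]
      have h5 := Real.exp_one_gt_d9
      have h6 : Real.exp 3 = (Real.exp 1) ^ 3 := by
        rw [← Real.exp_nat_mul]
        norm_num
      rw [h6]
      have h7 : (2.7182818283 : ℝ) ^ 3 ≤ (Real.exp 1) ^ 3 := pow_le_pow_left₀ (by norm_num) h5.le 3
      refine le_trans ?_ h7
      norm_num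
    linarith
  have h4 := tt_add_sub_le hM (a b + 1)
  have e : ln a b = tt (Mb a b + (a b + 1)) - tt (Mb a b) := by
    unfold ln tb
    rw [Mb_succ]
  rw [e]
  refine h4.trans ?_
  have e2 : Real.log (tt (Mb a b)) = L := rfl
  rw [e2]
  push_cast
  have h5 : (0 : ℝ) ≤ (a b : ℝ) + 1 := by positivity
  have h6 : ((a b : ℝ) + 1) * Real.log 18 ≤ 3 * L * 3 :=
    mul_le_mul h2 hlog18 (Real.log_nonneg (by norm_num)) (by linarith)
  have h7 : ((a b : ℝ) + 1) * Real.log 18 + L ≤ 3 * L * 3 + L := by linarith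
  calc 48 * ((a b : ℝ) + 1) * (((a b : ℝ) + 1) * Real.log 18 + L)
      ≤ 48 * (3 * L) * (3 * L * 3 + L) := by
        refine mul_le_mul (by linarith) h7 ?_ (by linarith)
        have : 0 ≤ ((a b : ℝ) + 1) * Real.log 18 := mul_nonneg h5 (Real.log_nonneg (by norm_num))
        linarith
    _ = 1440 * L ^ 2 := by ring

/-- the lengths of the blocks are small -/
theorem ln_pow (ha : Slow a) {δ : ℝ} (hδ : 0 < δ) : ∃ C : ℝ, 0 ≤ C ∧ ∀ b : ℕ, 1 ≤ b → ln a b ≤ C * (tb a b) ^ δ := by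
  refine ⟨1440 * (2 / δ) ^ 2, by positivity, fun b hb => ?_⟩
  have hx2 : 2 ≤ tb a b := tb_two hb
  have hx0 : 0 ≤ tb a b := by linarith
  have h1 := ln_log2 ha hb
  have h2 := Real.log_le_rpow_div hx0 (half_pos hδ)
  have h3 : 0 ≤ Real.log (tb a b) := Real.log_nonneg (by linarith)
  calc ln a b ≤ 1440 * Real.log (tb a b) ^ 2 := h1
    _ ≤ 1440 * ((tb a b) ^ (δ / 2) / (δ / 2)) ^ 2 :=
        mul_le_mul_of_nonneg_left (pow_le_pow_left₀ h3 h2 2) (by norm_num)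
    _ = 1440 * (2 / δ) ^ 2 * ((tb a b) ^ (δ / 2)) ^ 2 := by
        field_simp
    _ = _ := by
        rw [← Real.rpow_natCast ((tb a b) ^ (δ / 2)) 2, ← Real.rpow_mul hx0]
        congr 2
        push_cast
        ring

end Pool.Agent.H73.KZ
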