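import Pool.Agent.H73.KZ.Defs
import Pool.Agent.H73.KZ.Enu

/-!
# W5: the twisted discrepancies and the number of the primes
-/

set_option autoImplicit false

open MeasureTheory Filter Topology Set

namespace Pool.Agent.H73.KZ

open Pool.Agent.H49.BZ (Dens Disc BB mdg_int md MM tt md_meas log_pos' md_pos md_nonneg md_le_one md_int MM_sub MM_lt MM_le MM_nonneg
  le_MM_inc tt_one_le MM_tt tt_mono tt_zero tt_ge exists_slot MM_sub_le)
open Pool.Agent.H49.BP (ph ph_abs ph_meas pc lt_pc em em_norm em_meas AA L_ge sum_range_diff)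
open Pool.Agent.H73.TR (log_half' bint rot un em_ph)
open Pool.Agent.H73.KT hiding tb ln Blocks Enum NearB tb_zero tb_mono tb_one_le tb_two tb_ge ln_pos MM_tb MM_block exists_block ln_ge tt_add_le log_tt_add_le tt_add_sub_le

variable [Dens]

theorem tb_lt' (a : ℕ → ℕ) (b : ℕ) : tb a b < tb a (b + 1) := tb_mono (Nat.lt_succ_self b)

theorem int_md_block (a : ℕ → ℕ) (b : ℕ) : ∫ y in (tb a b)..(tb a (b + 1)), md y = (a b : ℝ) + 1 := by
  rw [← MM_sub (tb_one_le b) (tb_one_le (b + 1)), MM_block]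

theorem int_gmd_block (a : ℕ → ℕ) (b : ℕ) {g : ℝ → ℝ} (hb : ∀ u, |g u| ≤ 1) :
    |∫ y in (tb a b)..(tb a (b + 1)), g y * md y| ≤ (a b : ℝ) + 1 := by
  have h3 : ‖∫ y in (tb a b)..(tb a (b + 1)), g y * md y‖ ≤ ∫ y in (tb a b)..(tb a (b + 1)), md y := by
    refine intervalIntegral.norm_integral_le_of_norm_le (tb_lt' a b).le
      (Eventually.of_forall fun u hu => ?_) (md_int (tb_one_le _) (tb_one_le _))
    have hu1 : 1 ≤ u := (tb_one_le b).trans hu.1.le
    rw [norm_mul, Real.norm_eq_abs, Real.norm_of_nonneg (md_nonneg hu1)]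
    exact mul_le_of_le_one_left (md_nonneg hu1) (hb u)
  rw [int_md_block, Real.norm_eq_abs] at h3
  exact h3

theorem int_g_block (a : ℕ → ℕ) (b : ℕ) {g : ℝ → ℝ} (hb : ∀ u, |g u| ≤ 1) :
    |(ln a b)⁻¹ * ∫ y in (tb a b)..(tb a (b + 1)), g y| ≤ 1 := by
  have hl : 0 < ln a b := ln_pos b
  have h2 : ‖∫ y in (tb a b)..(tb a (b + 1)), g y‖ ≤ 1 * |tb a (b + 1) - tb a b| :=
    intervalIntegral.norm_integral_le_of_norm_le_const fun y _ => by
      rw [Real.norm_eq_abs]
      exact hb y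
  have e : tb a (b + 1) - tb a b = ln a b := rfl
  rw [e, Real.norm_eq_abs, abs_of_pos hl, one_mul] at h2
  rw [abs_mul, abs_of_pos (inv_pos.2 hl), ← div_eq_inv_mul, div_le_one hl]
  exact h2

/-- The means over the blocks are close to the integrals against the density. -/
theorem mean_block [DV] {a : ℕ → ℕ} (ha : Slow a) {δ : ℝ} (hδ : 0 < δ) : ∃ C : ℝ, 0 ≤ C ∧ ∀ g : ℝ → ℝ, Measurable g →
    (∀ u, |g u| ≤ 1) → ∀ J : ℕ,
    |∑ b ∈ Finset.range J, (((a b : ℝ) + 1) * ((ln a b)⁻¹ * ∫ y in (tb a b)..(tb a (b + 1)), g y) -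
      ∫ y in (tb a b)..(tb a (b + 1)), g y * md y)| ≤ C * (tb a J) ^ (1 / 2 + δ) := by
  obtain ⟨C1, hC1, hln⟩ := ln_pow ha hδ
  obtain ⟨V, C2, hC2, hV, hV2⟩ := DV.var
  have ha0 : (0 : ℝ) ≤ a 0 := Nat.cast_nonneg _
  refine ⟨2 * ((a 0 : ℝ) + 1) + C1 * C2, by positivity, fun g hg hb J => ?_⟩
  have hVm : ∀ u v, 2 ≤ u → u ≤ v → V u ≤ V v := fun u v h1 h2 => by
    have := (abs_nonneg _).trans (hV u v h1 h2)
    linarith
  set T : ℕ → ℝ := fun b => ((a b : ℝ) + 1) * ((ln a b)⁻¹ * ∫ y in (tb a b)..(tb a (b + 1)), g y) -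
      ∫ y in (tb a b)..(tb a (b + 1)), g y * md y with hT
  have hJ1 : 1 ≤ tb a J := tb_one_le J
  have h0 : |T 0| ≤ 2 * ((a 0 : ℝ) + 1) := by
    have h1 := int_g_block a 0 hb
    have h2 := int_gmd_block a 0 hb
    have h3 : |((a 0 : ℝ) + 1) * ((ln a 0)⁻¹ * ∫ y in (tb a 0)..(tb a (0 + 1)), g y)| ≤ (a 0 : ℝ) + 1 := by
      rw [abs_mul, abs_of_nonneg (by positivity : (0 : ℝ) ≤ (a 0 : ℝ) + 1)]
      exact mul_le_of_le_one_right (by positivity) h1
    have h4 := abs_sub (((a 0 : ℝ) + 1) * ((ln a 0)⁻¹ * ∫ y in (tb a 0)..(tb a (0 + 1)), g y))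
      (∫ y in (tb a 0)..(tb a (0 + 1)), g y * md y)
    rw [hT]
    beta_reduce
    linarith
  have hb1 : ∀ b : ℕ, 1 ≤ b → b < J → |T b| ≤ C1 * (tb a J) ^ δ * (V (tb a (b + 1)) - V (tb a b)) := by
    intro b hb0 hbJ
    have h2 : 2 ≤ tb a b := tb_two hb0
    have h5 := avg_bd hg hb h2 (tb_lt' a b) (ω := V (tb a (b + 1)) - V (tb a b)) (by
      intro u hu w hw
      rcases le_total u w with h | h
      · have h6 := hV u w (h2.trans hu.1) h
        have h7 := hVm _ _ h2 hu.1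
        have h8 := hVm _ _ (h2.trans hw.1) hw.2
        linarith
      · have h6 := hV w u (h2.trans hw.1) h
        have h7 := hVm _ _ h2 hw.1
        have h8 := hVm _ _ (h2.trans hu.1) hu.2
        rw [abs_sub_comm]
        linarith)
    rw [MM_block] at h5
    have e : tb a (b + 1) - tb a b = ln a b := rfl
    rw [e] at h5
    have h6 : ((a b : ℝ) + 1) * (ln a b)⁻¹ * (∫ y in (tb a b)..(tb a (b + 1)), g y) =
        ((a b : ℝ) + 1) * ((ln a b)⁻¹ * ∫ y in (tb a b)..(tb a (b + 1)), g y) := by ring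
    rw [h6] at h5
    refine h5.trans ?_
    refine mul_le_mul_of_nonneg_right ?_ (by linarith [hVm _ _ h2 (tb_lt' a b).le])
    refine (hln b hb0).trans (mul_le_mul_of_nonneg_left ?_ hC1)
    exact Real.rpow_le_rpow (by linarith) (tb_mono.monotone hbJ.le) hδ.le
  have key : ∀ i : ℕ, 1 ≤ i → i ≤ J → ∑ b ∈ Finset.range i, |T b| ≤
      2 * ((a 0 : ℝ) + 1) + C1 * (tb a J) ^ δ * (V (tb a i) - V (tb a 1)) := by
    intro i hi
    induction i, hi using Nat.le_induction with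
    | base =>
      intro _
      rw [Finset.sum_range_one]
      simpa using h0
    | succ i hi ih =>
      intro hiJ
      rw [Finset.sum_range_succ]
      have h1 := ih (by omega)
      have h2 := hb1 i hi (by omega)
      calc _ ≤ 2 * ((a 0 : ℝ) + 1) + C1 * (tb a J) ^ δ * (V (tb a i) - V (tb a 1)) +
            C1 * (tb a J) ^ δ * (V (tb a (i + 1)) - V (tb a i)) := add_le_add h1 h2
        _ = _ := by ring
  have hpow : 1 ≤ (tb a J) ^ (1 / 2 + δ) := Real.one_le_rpow hJ1 (by linarith)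
  rcases Nat.eq_zero_or_pos J with hJ0 | hJ0
  · subst hJ0
    rw [Finset.sum_range_zero, abs_zero]
    positivity
  refine (Finset.abs_sum_le_sum_abs _ _).trans ((key J hJ0 le_rfl).trans ?_)
  have hJ2 : 2 ≤ tb a J := tb_two hJ0
  have h1 : V (tb a J) - V (tb a 1) ≤ C2 * √(tb a J) := by
    have h2 := (hV2 (tb a J) hJ2).2
    have h3 := (hV2 (tb a 1) (tb_two le_rfl)).1
    linarith
  have hp : 0 ≤ (tb a J) ^ δ := Real.rpow_nonneg (by linarith) _
  have h4 : C1 * (tb a J) ^ δ * (V (tb a J) - V (tb a 1)) ≤ C1 * (tb a J) ^ δ * (C2 * √(tb a J)) :=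
    mul_le_mul_of_nonneg_left h1 (by positivity)
  have h5 : C1 * (tb a J) ^ δ * (C2 * √(tb a J)) = C1 * C2 * (tb a J) ^ (1 / 2 + δ) := by
    rw [Real.rpow_add (by linarith), Real.sqrt_eq_rpow]
    ring
  have h6 : 2 * ((a 0 : ℝ) + 1) ≤ 2 * ((a 0 : ℝ) + 1) * (tb a J) ^ (1 / 2 + δ) :=
    le_mul_of_one_le_right (by positivity) hpow
  calc _ ≤ 2 * ((a 0 : ℝ) + 1) * (tb a J) ^ (1 / 2 + δ) + C1 * C2 * (tb a J) ^ (1 / 2 + δ) := by linarith
    _ = _ := by ring

/-- As `disc_qs` in `TR/Di.lean`, with blocks of variable masses: for `tb a J ≤ x < tb a (J + 1)` the sums over the primes up to `x`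
and over the first `J` blocks differ by at most `a J + 1 ≤ C (J + 1) ^ δ ≤ C' x ^ δ` (`growth`, `tb_ge`), the integrals by at most
`a J + 1`. (Use `NearB` with `δ`, and `mean_block`.) -/
theorem disc_blocks [DV] {a : ℕ → ℕ} {S : ℕ → Finset ℝ} {q : ℕ → ℝ} (ha : Slow a) (hS : Blocks a S) (hq : Enum a S q)
    (hN : NearB a S) : Disc q := by
  intro δ hδ
  obtain ⟨C, hC0, hC⟩ := hN δ hδ
  obtain ⟨D, hD0, hD⟩ := mean_block ha hδ
  obtain ⟨G, hG0, hG⟩ := growth ha hδ
  refine ⟨2 * C + 2 * D + 2 * G, by positivity, fun m x hx => ?_⟩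
  obtain ⟨J, hJ1, hJ2⟩ := exists_block (a := a) hx
  have hsL : 1 ≤ √(Real.log (|(m : ℝ)| + 3)) := Real.one_le_sqrt.2 (L_ge m)
  set L := √(Real.log (|(m : ℝ)| + 3)) with hL
  have hx0 : 0 < x := by linarith
  have hxs : √x ≤ x ^ (1 / 2 + δ) := by
    rw [Real.sqrt_eq_rpow]
    exact Real.rpow_le_rpow_of_exponent_le hx (by linarith)
  have hx1 : 1 ≤ x ^ (1 / 2 + δ) := Real.one_le_rpow hx (by linarith)
  have hJ0 : (0 : ℝ) ≤ J := Nat.cast_nonneg J
  have hJx1 : (J : ℝ) + 1 ≤ x := (tb_ge J).trans hJ1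
  have hJx : (J : ℝ) ≤ x := by linarith
  have haJ : (a J : ℝ) + 1 ≤ G * x ^ (1 / 2 + δ) := by
    refine (hG J).trans (mul_le_mul_of_nonneg_left ?_ hG0)
    refine (Real.rpow_le_rpow (by positivity) hJx1 hδ.le).trans ?_
    exact Real.rpow_le_rpow_of_exponent_le hx (by linarith)
  obtain ⟨hp1, hp2⟩ := pc_block hS hq hJ1 hJ2
  have d1 : ‖AA q m x - ∑ j ∈ Finset.range (Mb a J), em m (q j)‖ ≤ G * x ^ (1 / 2 + δ) := by
    refine le_trans ?_ haJ
    unfold AA
    refine (sum_range_diff (fun j => (em_norm m _).le) _ _).trans ?_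
    have h1 : ((Mb a J : ℕ) : ℝ) ≤ pc q x := by exact_mod_cast hp1
    have h2 : (pc q x : ℝ) ≤ ((Mb a J + (a J + 1) : ℕ) : ℝ) := by exact_mod_cast hp2
    push_cast at h1 h2 ⊢
    rw [abs_le]
    constructor <;> linarith [(Nat.cast_nonneg (a J) : (0 : ℝ) ≤ a J)]
  have d4 : ‖BB m (tb a J) - BB m x‖ ≤ G * x ^ (1 / 2 + δ) := by
    refine le_trans ?_ haJ
    have hi1 := mdg_int (g := em m) (em_meas m) (fun u => (em_norm m u).le) le_rfl (tb_one_le (a := a) J)
    have hi2 := mdg_int (g := em m) (em_meas m) (fun u => (em_norm m u).le) le_rfl hx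
    have h1 : BB m x - BB m (tb a J) = ∫ u in (tb a J)..x, em m u * (md u : ℂ) := by
      unfold BB
      exact intervalIntegral.integral_interval_sub_left hi2 hi1
    rw [norm_sub_rev, h1]
    have h2 : ‖∫ u in (tb a J)..x, em m u * (md u : ℂ)‖ ≤ ∫ u in (tb a J)..x, md u := by
      refine intervalIntegral.norm_integral_le_of_norm_le hJ1 (Eventually.of_forall fun u hu => ?_)
        (md_int (tb_one_le _) hx)
      have hu1 : 1 ≤ u := (tb_one_le (a := a) J).trans hu.1.le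
      rw [norm_mul, em_norm, one_mul, Complex.norm_real, Real.norm_of_nonneg (md_nonneg hu1)]
    refine h2.trans ?_
    rw [← MM_sub (tb_one_le _) hx]
    have h3 := MM_le hx hJ2.le
    have h4 := MM_block (a := a) J
    linarith
  -- the main sums
  have key : ∀ s : Bool, |∑ b ∈ Finset.range J, (∑ y ∈ S b, ph m s y -
      ∫ y in (tb a b)..(tb a (b + 1)), ph m s y * md y)| ≤
      C * x ^ (1 / 2 + δ) * L + D * x ^ (1 / 2 + δ) := by
    intro s
    have h1 := hC m s J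
    have h2 := hD (ph m s) (ph_meas m s) (ph_abs m s) J
    have h3 : ∑ b ∈ Finset.range J, (∑ y ∈ S b, ph m s y -
        ∫ y in (tb a b)..(tb a (b + 1)), ph m s y * md y) =
        ∑ b ∈ Finset.range J, (∑ y ∈ S b, ph m s y -
          ((a b : ℝ) + 1) * ((ln a b)⁻¹ * ∫ y in (tb a b)..(tb a (b + 1)), ph m s y)) +
        ∑ b ∈ Finset.range J, (((a b : ℝ) + 1) * ((ln a b)⁻¹ * ∫ y in (tb a b)..(tb a (b + 1)), ph m s y) -
          ∫ y in (tb a b)..(tb a (b + 1)), ph m s y * md y) := by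
      rw [← Finset.sum_add_distrib]
      exact Finset.sum_congr rfl fun j _ => by ring
    rw [h3]
    refine (abs_add_le _ _).trans (add_le_add (h1.trans ?_) (h2.trans ?_))
    · have h4 : (J : ℝ) ^ (1 / 2 + δ) ≤ x ^ (1 / 2 + δ) := Real.rpow_le_rpow (Nat.cast_nonneg J) hJx (by linarith)
      gcongr
    · have h4 : (tb a J) ^ (1 / 2 + δ) ≤ x ^ (1 / 2 + δ) :=
        Real.rpow_le_rpow (by linarith [tb_one_le (a := a) J]) hJ1 (by linarith)
      exact mul_le_mul_of_nonneg_left h4 hD0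
  have hsumI : ∑ j ∈ Finset.range J, ∫ u in (tb a j)..(tb a (j + 1)), em m u * (md u : ℂ) =
      BB m (tb a J) := by
    unfold BB
    have h1 := intervalIntegral.sum_integral_adjacent_intervals (a := fun j => tb a j) (n := J) (μ := volume)
      (f := fun u => em m u * (md u : ℂ)) (fun k _ => mdg_int (em_meas m) (fun u => (em_norm m u).le)
        (tb_one_le _) (tb_one_le _))
    simp only [tb_zero] at h1
    rw [← h1]
  have hslot : ∀ j, ∫ u in (tb a j)..(tb a (j + 1)), em m u * (md u : ℂ) =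
      ((∫ y in (tb a j)..(tb a (j + 1)), ph m true y * md y : ℝ) : ℂ) -
      ((∫ y in (tb a j)..(tb a (j + 1)), ph m false y * md y : ℝ) : ℂ) * Complex.I := by
    intro j
    rw [← intervalIntegral.integral_ofReal, ← intervalIntegral.integral_ofReal,
      ← intervalIntegral.integral_mul_const, ← intervalIntegral.integral_sub]
    · refine intervalIntegral.integral_congr fun u _ => ?_
      rw [em_ph]
      push_cast
      ring
    · have h := bmd_int (ph_meas m true) (ph_abs m true) (tb_one_le (a := a) j) (tb_one_le (a := a) (j + 1))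
      exact (⟨h.1.ofReal, h.2.ofReal⟩ : IntervalIntegrable (fun u => ((ph m true u * md u : ℝ) : ℂ)) volume _ _)
    · have h := bmd_int (ph_meas m false) (ph_abs m false) (tb_one_le (a := a) j) (tb_one_le (a := a) (j + 1))
      have h' : IntervalIntegrable (fun u => ((ph m false u * md u : ℝ) : ℂ)) volume (tb a j) (tb a (j + 1)) :=
        ⟨h.1.ofReal, h.2.ofReal⟩
      exact IntervalIntegrable.mul_const h' _
  have d3 : ‖∑ j ∈ Finset.range (Mb a J), em m (q j) - BB m (tb a J)‖ ≤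
      2 * (C * x ^ (1 / 2 + δ) * L + D * x ^ (1 / 2 + δ)) := by
    have e : ∑ j ∈ Finset.range (Mb a J), em m (q j) - BB m (tb a J) =
        ((∑ b ∈ Finset.range J, (∑ y ∈ S b, ph m true y -
          ∫ y in (tb a b)..(tb a (b + 1)), ph m true y * md y) : ℝ) : ℂ) -
        ((∑ b ∈ Finset.range J, (∑ y ∈ S b, ph m false y -
          ∫ y in (tb a b)..(tb a (b + 1)), ph m false y * md y) : ℝ) : ℂ) * Complex.I := by
      rw [enum_sum hS hq, ← hsumI, ← Finset.sum_sub_distrib]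
      push_cast
      rw [Finset.sum_mul, ← Finset.sum_sub_distrib]
      refine Finset.sum_congr rfl fun j _ => ?_
      rw [hslot, Finset.sum_congr rfl fun y _ => em_ph m y, Finset.sum_sub_distrib, ← Finset.sum_mul]
      ring
    rw [e]
    refine (norm_sub_le _ _).trans ?_
    rw [norm_mul, Complex.norm_I, mul_one, Complex.norm_real, Complex.norm_real, Real.norm_eq_abs, Real.norm_eq_abs]
    have k1 := key true
    have k2 := key false
    linarith
  have hfin : AA q m x - BB m x = (AA q m x - ∑ j ∈ Finset.range (Mb a J), em m (q j)) +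
      (∑ j ∈ Finset.range (Mb a J), em m (q j) - BB m (tb a J)) + (BB m (tb a J) - BB m x) := by ring
  rw [hfin]
  refine (norm_add_le _ _).trans ?_
  refine (add_le_add ((norm_add_le _ _).trans (add_le_add d1 d3)) d4).trans ?_
  have e1 : x ^ (1 / 2 + δ) ≤ x ^ (1 / 2 + δ) * L := le_mul_of_one_le_right (by positivity) hsL
  have e3 : D * x ^ (1 / 2 + δ) ≤ D * (x ^ (1 / 2 + δ) * L) := mul_le_mul_of_nonneg_left e1 hD0
  have e4 : G * x ^ (1 / 2 + δ) ≤ G * (x ^ (1 / 2 + δ) * L) := mul_le_mul_of_nonneg_left e1 hG0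
  calc G * x ^ (1 / 2 + δ) + 2 * (C * x ^ (1 / 2 + δ) * L + D * x ^ (1 / 2 + δ)) + G * x ^ (1 / 2 + δ)
      ≤ G * (x ^ (1 / 2 + δ) * L) + 2 * (C * (x ^ (1 / 2 + δ) * L) + D * (x ^ (1 / 2 + δ) * L)) +
        G * (x ^ (1 / 2 + δ) * L) := by
        rw [mul_assoc C]
        linarith
    _ = _ := by ring

/-- the number of the points -/
theorem points_blocks {a : ℕ → ℕ} {S : ℕ → Finset ℝ} {q : ℕ → ℝ} (ha : Slow a) (hS : Blocks a S) (hq : Enum a S q)
    {δ : ℝ} (hδ : 0 < δ) : ∃ C : ℝ, ∀ x : ℝ, 1 ≤ x → |(pc q x : ℝ) - MM x| ≤ C * x ^ δ := by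
  obtain ⟨G, hG0, hG⟩ := growth ha hδ
  refine ⟨G, fun x hx => ?_⟩
  obtain ⟨J, hJ1, hJ2⟩ := exists_block (a := a) (x := x) hx
  obtain ⟨h1, h2⟩ := pc_block hS hq hJ1 hJ2
  have h1' : ((Mb a J : ℕ) : ℝ) ≤ pc q x := by exact_mod_cast h1
  have h2' : (pc q x : ℝ) ≤ ((Mb a J + (a J + 1) : ℕ) : ℝ) := by exact_mod_cast h2
  push_cast at h2'
  have haJ : (a J : ℝ) + 1 ≤ G * x ^ δ := by
    refine (hG J).trans (mul_le_mul_of_nonneg_left ?_ hG0)
    exact Real.rpow_le_rpow (by positivity) ((tb_ge J).trans hJ1) hδ.le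
  have h4 := MM_le (tb_one_le (a := a) J) hJ1
  have h5 := MM_le (a := x) (by linarith) hJ2.le
  have h5' := MM_block (a := a) J
  rw [MM_tb J] at h4 h5'
  rw [abs_le]
  constructor <;> linarith

end Pool.Agent.H73.KZ
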