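import Pool.Agent.H73.KZ.Sys

/-!
# KZ: the block systems with prescribed zeros and prescribed laws of all constellations (no holes)
-/

set_option autoImplicit false

open Filter Topology MeasureTheory Complex

namespace Pool.Agent.H73.KZ

open Pool.Agent.H49.BP (gint pc)
open Pool.Agent.H49.BZ (Dens MM dens Windows Disc SmallErr primeCount intCount RHSystem)
open Pool.Agent.H73.KT (tc Laws)

/-- a system whose count follows the density up to `x ^ δ` -/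
theorem small_of_count [Dens] {q : ℕ → ℝ} (hq : StrictMono q) (hg : ∀ j : ℕ, (j : ℝ) + 1 ≤ q j)
    (hcount : ∀ δ : ℝ, 0 < δ → ∃ C : ℝ, ∀ x : ℝ, 1 ≤ x → |(pc q x : ℝ) - MM x| ≤ C * x ^ δ) : SmallErr q := by
  refine Pool.Agent.H49.BZ.smallErr_of (u := fun k => (2 : ℝ) ^ k) (w := fun k => (2 : ℝ) ^ k) (K := 0) hq hg hcount
    le_rfl (fun k => le_rfl) (fun k => le_rfl) (fun k => by simp) (fun x _ _ => rfl) fun k x _ => by simp

/-- the block system -/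
theorem base_system {γ : ℕ → ℝ} (h0 : ∀ k, 0 < γ k) (hm : Monotone γ) (hW : Windows γ) {q : ℕ → ℝ}
    (hq : StrictMono q) (hg : ∀ j : ℕ, (j : ℝ) + 1 ≤ q j) (hq0 : 1 < q 0) (hD : @Disc (dens γ h0) q)
    (hcount : ∀ δ : ℝ, 0 < δ → ∃ C : ℝ, ∀ x : ℝ, 1 ≤ x → |(pc q x : ℝ) - @MM (dens γ h0) x| ≤ C * x ^ δ) :
    (∃ Z : ℂ → ℂ, RHSystem q Z ∧ HasZeros Z γ) ∧
      ∀ ε : ℝ, 0 < ε → ∃ C : ℝ, ∀ x : ℝ, 1 ≤ x → |(primeCount q x : ℝ) - explicit γ x| ≤ C * x ^ ε := by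
  let _ : Dens := dens γ h0
  exact ⟨system_of h0 hm hW hq hq0 hg hD (small_of_count hq hg hcount) fun ε hε => hcount (1 / 2 + ε) (by linarith),
    hcount⟩

end Pool.Agent.H73.KZ
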